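import Pool.Agent.W994.AR.Rich

/-!
The doubly exponential bound for the proportion of relations which are not rich.
-/

namespace Pool.Agent.W994.AR

open Finset

variable {B : Type}

theorem finite_inv (G : Subgroup (Equiv.Perm B)) (V : Type) [Finite (Orb G V)] :
    Finite (InvRel G V) := Finite.of_equiv _ (invEquiv G V).symm

theorem rich_bound (G : Subgroup (Equiv.Perm B)) (M : ℕ) (hM : 0 < M)
    (hfin : ∀ k, Finite (Orb G (Fin k))) :
    ∃ C c δ : ℝ, 0 < C ∧ 0 < c ∧ 0 < δ ∧ ∀ k : ℕ,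
      (Nat.card {R : InvRel G (Fin k) // ¬ Rich G (Fin M) R.1} : ℝ) ≤
        C * Real.exp (-(δ * Real.exp (c * k))) * Nat.card (InvRel G (Fin k)) := by
  set N := Nat.card (Orb G (Fin M)) with hN
  have hMr : (0 : ℝ) < M := by exact_mod_cast hM
  have hl2 : 0 < Real.log 2 := Real.log_pos (by norm_num)
  refine ⟨N + 2, Real.log 2 / M, (2⁻¹ : ℝ) ^ N / 4, by positivity, by positivity, by positivity, ?_⟩
  intro k
  have := hfin k
  have := hfin M
  have := finite_inv G (Fin k)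
  have hInv0 : (0 : ℝ) ≤ Nat.card (InvRel G (Fin k)) := Nat.cast_nonneg _
  have hexp : Real.exp (Real.log 2 / M * k) = (2 : ℝ) ^ ((k : ℝ) / M) := by
    rw [Real.rpow_def_of_pos (by norm_num)]
    congr 1
    field_simp
  rw [hexp]
  rcases Nat.lt_or_ge k M with hk | hk
  · -- small k
    have h1 : (2 : ℝ) ^ ((k : ℝ) / M) ≤ 2 := by
      have : (2 : ℝ) ^ ((k : ℝ) / M) ≤ (2 : ℝ) ^ (1 : ℝ) := by
        apply Real.rpow_le_rpow_of_exponent_le (by norm_num)
        rw [div_le_one hMr]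
        exact_mod_cast hk.le
      rwa [Real.rpow_one] at this
    have h2 : (2⁻¹ : ℝ) ^ N ≤ 1 := pow_le_one₀ (by norm_num) (by norm_num)
    have h2' : (0 : ℝ) ≤ (2⁻¹ : ℝ) ^ N := by positivity
    have h3 : (2⁻¹ : ℝ) ^ N / 4 * (2 : ℝ) ^ ((k : ℝ) / M) ≤ 1 / 2 := by
      calc (2⁻¹ : ℝ) ^ N / 4 * (2 : ℝ) ^ ((k : ℝ) / M) ≤ 1 / 4 * 2 := by
            apply mul_le_mul (by linarith) h1 (by positivity) (by norm_num)
        _ = 1 / 2 := by norm_num
    have h4 : (1 : ℝ) / 2 ≤ Real.exp (-((2⁻¹ : ℝ) ^ N / 4 * (2 : ℝ) ^ ((k : ℝ) / M))) := by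
      have := Real.add_one_le_exp (-((2⁻¹ : ℝ) ^ N / 4 * (2 : ℝ) ^ ((k : ℝ) / M)))
      linarith
    have h5 : (1 : ℝ) ≤ (N + 2) * Real.exp (-((2⁻¹ : ℝ) ^ N / 4 * (2 : ℝ) ^ ((k : ℝ) / M))) := by
      have hN0 : (0 : ℝ) ≤ N := Nat.cast_nonneg _
      nlinarith
    have h6 : (Nat.card {R : InvRel G (Fin k) // ¬ Rich G (Fin M) R.1} : ℝ) ≤
        Nat.card (InvRel G (Fin k)) := by
      exact_mod_cast Finite.card_subtype_le _
    calc (Nat.card {R : InvRel G (Fin k) // ¬ Rich G (Fin M) R.1} : ℝ)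
        ≤ 1 * Nat.card (InvRel G (Fin k)) := by rw [one_mul]; exact h6
      _ ≤ _ := mul_le_mul_of_nonneg_right h5 hInv0
  · -- large k
    have hq1 : 1 ≤ k / M := (Nat.one_le_div_iff hM).2 hk
    set m := k / M - 1 with hm
    have hm1 : m + 1 = k / M := by omega
    have hmk : (m + 1) * M ≤ k := by rw [hm1]; exact Nat.div_mul_le_self k M
    have h := rich_count_aux G M k m hM hmk
    rw [← hN] at h
    refine h.trans ?_
    have hx0 : (0 : ℝ) ≤ (2⁻¹ : ℝ) ^ N := by positivity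
    have hx1 : (2⁻¹ : ℝ) ^ N ≤ 1 := pow_le_one₀ (by norm_num) (by norm_num)
    have h1 : (1 - (2⁻¹ : ℝ) ^ N) ^ (2 ^ m) ≤ Real.exp (-((2⁻¹ : ℝ) ^ N * 2 ^ m)) := by
      have h2 : 1 - (2⁻¹ : ℝ) ^ N ≤ Real.exp (-(2⁻¹ : ℝ) ^ N) := by
        have := Real.add_one_le_exp (-(2⁻¹ : ℝ) ^ N)
        linarith
      calc (1 - (2⁻¹ : ℝ) ^ N) ^ (2 ^ m) ≤ Real.exp (-(2⁻¹ : ℝ) ^ N) ^ (2 ^ m) :=
            pow_le_pow_left₀ (by linarith) h2 _
        _ = _ := by
            rw [← Real.exp_nat_mul]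
            congr 1
            push_cast
            ring
    have h3 : (2 : ℝ) ^ ((k : ℝ) / M) / 4 ≤ 2 ^ m := by
      have h4 : ((k : ℝ) / M) ≤ (m : ℝ) + 2 := by
        have h5 : (k : ℝ) < ((k / M : ℕ) + 1 : ℝ) * M := by
          have := Nat.lt_mul_of_div_lt (Nat.lt_succ_self (k / M)) hM
          exact_mod_cast this
        rw [div_le_iff₀ hMr]
        have h6 : ((k / M : ℕ) : ℝ) = m + 1 := by rw [← hm1]; push_cast; ring
        rw [h6] at h5
        linarith
      have h7 : (2 : ℝ) ^ ((k : ℝ) / M) ≤ (2 : ℝ) ^ ((m : ℝ) + 2) :=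
        Real.rpow_le_rpow_of_exponent_le (by norm_num) h4
      have h8 : (2 : ℝ) ^ ((m : ℝ) + 2) = 2 ^ m * 4 := by
        rw [Real.rpow_add (by norm_num), Real.rpow_natCast]
        norm_num
      rw [h8] at h7
      linarith
    have h9 : Real.exp (-((2⁻¹ : ℝ) ^ N * 2 ^ m)) ≤
        Real.exp (-((2⁻¹ : ℝ) ^ N / 4 * (2 : ℝ) ^ ((k : ℝ) / M))) := by
      apply Real.exp_le_exp.2
      have := mul_le_mul_of_nonneg_left h3 hx0
      nlinarith
    calc (N : ℝ) * ((1 - (2⁻¹ : ℝ) ^ N) ^ (2 ^ m) * Nat.card (InvRel G (Fin k)))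
        ≤ N * (Real.exp (-((2⁻¹ : ℝ) ^ N / 4 * (2 : ℝ) ^ ((k : ℝ) / M))) *
            Nat.card (InvRel G (Fin k))) := by
          apply mul_le_mul_of_nonneg_left _ (Nat.cast_nonneg _)
          exact mul_le_mul_of_nonneg_right (h1.trans h9) hInv0
      _ ≤ (N + 2) * (Real.exp (-((2⁻¹ : ℝ) ^ N / 4 * (2 : ℝ) ^ ((k : ℝ) / M))) *
            Nat.card (InvRel G (Fin k))) := by
          apply mul_le_mul_of_nonneg_right (by linarith) (by positivity)
      _ = _ := by ring

/-- the version for several relations of different arities -/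
theorem rich_bound_many (G : Subgroup (Equiv.Perm B)) (M : ℕ) (hM : 0 < M)
    (hfin : ∀ k, Finite (Orb G (Fin k))) :
    ∃ C c δ : ℝ, 0 < C ∧ 0 < c ∧ 0 < δ ∧ ∀ (t : ℕ) (k : Fin t → ℕ) (m : ℕ), (∀ j, m ≤ k j) →
      (Nat.card {R : ∀ j, InvRel G (Fin (k j)) // ¬ ∀ j, Rich G (Fin M) (R j).1} : ℝ) ≤
        t * C * Real.exp (-(δ * Real.exp (c * m))) * Nat.card (∀ j, InvRel G (Fin (k j))) := by
  classical
  obtain ⟨C, c, δ, hC, hc, hδ, h⟩ := rich_bound G M hM hfin
  refine ⟨C, c, δ, hC, hc, hδ, ?_⟩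
  intro t k m hm
  have hF : ∀ j, Finite (InvRel G (Fin (k j))) := fun j => by
    have := hfin (k j)
    exact finite_inv G _
  have hFt : ∀ j, Fintype (InvRel G (Fin (k j))) := fun j => Fintype.ofFinite _
  -- the bad sets
  let bad : ∀ j : Fin t, Finset (∀ i, InvRel G (Fin (k i))) := fun j =>
    Fintype.piFinset (fun i => if i = j then Finset.univ.filter (fun R => ¬ Rich G (Fin M) R.1)
      else Finset.univ)
  have hcard : ∀ j, ((bad j).card : ℝ) ≤ C * Real.exp (-(δ * Real.exp (c * m))) *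
      Nat.card (∀ j, InvRel G (Fin (k j))) := by
    intro j
    simp only [bad, Fintype.card_piFinset]
    rw [← Finset.mul_prod_erase _ _ (Finset.mem_univ j)]
    rw [if_pos rfl]
    have h1 : ∏ x ∈ Finset.univ.erase j, (if x = j then Finset.univ.filter
        (fun R : InvRel G (Fin (k x)) => ¬ Rich G (Fin M) R.1) else Finset.univ).card =
        ∏ x ∈ Finset.univ.erase j, Fintype.card (InvRel G (Fin (k x))) := by
      apply Finset.prod_congr rfl
      intro x hx
      rw [if_neg (Finset.ne_of_mem_erase hx), Finset.card_univ]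
    rw [h1]
    have h2 : Nat.card (∀ j, InvRel G (Fin (k j))) = Fintype.card (InvRel G (Fin (k j))) *
        ∏ x ∈ Finset.univ.erase j, Fintype.card (InvRel G (Fin (k x))) := by
      rw [Nat.card_eq_fintype_card, Fintype.card_pi]
      exact (Finset.mul_prod_erase Finset.univ (fun x => Fintype.card (InvRel G (Fin (k x))))
        (Finset.mem_univ j)).symm
    rw [h2]
    have h3 : ((Finset.univ.filter (fun R : InvRel G (Fin (k j)) => ¬ Rich G (Fin M) R.1)).card : ℝ)
        ≤ C * Real.exp (-(δ * Real.exp (c * m))) * Fintype.card (InvRel G (Fin (k j))) := by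
      have h4 := h (k j)
      rw [Nat.card_eq_fintype_card, Fintype.card_subtype, Nat.card_eq_fintype_card] at h4
      refine h4.trans ?_
      apply mul_le_mul_of_nonneg_right _ (Nat.cast_nonneg _)
      apply mul_le_mul_of_nonneg_left _ hC.le
      apply Real.exp_le_exp.2
      have h5 : Real.exp (c * m) ≤ Real.exp (c * k j) := by
        apply Real.exp_le_exp.2
        apply mul_le_mul_of_nonneg_left _ hc.le
        exact_mod_cast hm j
      have := mul_le_mul_of_nonneg_left h5 hδ.le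
      linarith
    push_cast
    rw [← mul_assoc]
    exact mul_le_mul_of_nonneg_right h3 (by positivity)
  have hle : Nat.card {R : ∀ j, InvRel G (Fin (k j)) // ¬ ∀ j, Rich G (Fin M) (R j).1} ≤
      (Finset.univ.biUnion bad).card := by
    rw [Nat.card_eq_fintype_card, Fintype.card_subtype]
    apply Finset.card_le_card
    intro R hR
    obtain ⟨j, hj⟩ := not_forall.1 (Finset.mem_filter.1 hR).2
    rw [Finset.mem_biUnion]
    refine ⟨j, Finset.mem_univ _, ?_⟩
    rw [Fintype.mem_piFinset]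
    intro i
    by_cases hij : i = j
    · subst hij
      rw [if_pos rfl, Finset.mem_filter]
      exact ⟨Finset.mem_univ _, hj⟩
    · rw [if_neg hij]
      exact Finset.mem_univ _
  calc (Nat.card {R : ∀ j, InvRel G (Fin (k j)) // ¬ ∀ j, Rich G (Fin M) (R j).1} : ℝ)
      ≤ ((Finset.univ.biUnion bad).card : ℝ) := by exact_mod_cast hle
    _ ≤ ∑ j, ((bad j).card : ℝ) := by exact_mod_cast Finset.card_biUnion_le
    _ ≤ ∑ _j : Fin t, C * Real.exp (-(δ * Real.exp (c * m))) *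
        Nat.card (∀ j, InvRel G (Fin (k j))) := Finset.sum_le_sum (fun j _ => hcard j)
    _ = _ := by
        rw [Finset.sum_const, Finset.card_univ, Fintype.card_fin, nsmul_eq_mul]
        ring

end Pool.Agent.W994.AR
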