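import Mathlib

/-!
Counting subsets of a finite set that avoid prescribed traces on pairwise disjoint sets.
-/

namespace Pool.Agent.W994.AR

open Finset

theorem count {Ω κ : Type} [Fintype Ω] [DecidableEq Ω] (d : ℕ) (W : Finset κ)
    (D A : κ → Finset Ω) (hA : ∀ w ∈ W, A w ⊆ D w) (hd : ∀ w ∈ W, (D w).card ≤ d)
    (hdis : ∀ w ∈ W, ∀ w' ∈ W, w ≠ w' → Disjoint (D w) (D w')) :
    (((Finset.univ : Finset (Finset Ω)).filter (fun R => ∀ w ∈ W, R ∩ D w ≠ A w)).card : ℝ) ≤
      (1 - (2⁻¹ : ℝ) ^ d) ^ W.card * 2 ^ Fintype.card Ω := by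
  classical
  induction W using Finset.induction_on with
  | empty =>
    simp
  | insert w0 W hw0 ih =>
    have ih' := ih (fun w hw => hA w (mem_insert_of_mem hw)) (fun w hw => hd w (mem_insert_of_mem hw))
      (fun w hw w' hw' => hdis w (mem_insert_of_mem hw) w' (mem_insert_of_mem hw'))
    set X := (Finset.univ : Finset (Finset Ω)).filter (fun R => ∀ w ∈ W, R ∩ D w ≠ A w) with hX
    set X0 := X.filter (fun R => R ∩ D w0 = A w0) with hX0
    set Y := (Finset.univ : Finset (Finset Ω)).filter (fun R => ∀ w ∈ insert w0 W, R ∩ D w ≠ A w)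
      with hY
    have hYX : Y.card + X0.card = X.card := by
      have : Y = X.filter (fun R => ¬ (R ∩ D w0 = A w0)) := by
        ext R
        simp only [hY, hX, mem_filter, mem_univ, true_and, mem_insert, forall_eq_or_imp]
        tauto
      rw [this, add_comm]
      exact Finset.card_filter_add_card_filter_not (s := X) (fun R => R ∩ D w0 = A w0)
    have hA0 := hA w0 (mem_insert_self _ _)
    have hinj : X.card ≤ X0.card * 2 ^ (D w0).card := by
      have hmap : Set.MapsTo (fun R : Finset Ω => ((R \ D w0) ∪ A w0, R ∩ D w0)) (X : Set (Finset Ω))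
          ((X0 ×ˢ (D w0).powerset : Finset (Finset Ω × Finset Ω)) : Set (Finset Ω × Finset Ω)) := by
        intro R hR
        simp only [hX, hX0, coe_filter, mem_univ, true_and, Set.mem_ofPred_eq, coe_product,
          Set.mem_prod, mem_coe, mem_filter, mem_powerset] at hR ⊢
        refine ⟨⟨?_, ?_⟩, inter_subset_right⟩
        · intro w hw h
          apply hR w hw
          rw [← h]
          have hdisj : Disjoint (D w0) (D w) := hdis w0 (mem_insert_self _ _) w (mem_insert_of_mem hw)
            (fun h => hw0 (h ▸ hw))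
          ext o
          simp only [mem_inter, mem_union, mem_sdiff]
          constructor
          · rintro ⟨h1, h2⟩
            exact ⟨Or.inl ⟨h1, fun h3 => Finset.disjoint_left.1 hdisj h3 h2⟩, h2⟩
          · rintro ⟨h1 | h1, h2⟩
            · exact ⟨h1.1, h2⟩
            · exact absurd h2 (Finset.disjoint_left.1 hdisj (hA0 h1))
        · ext o
          simp only [mem_inter, mem_union, mem_sdiff]
          constructor
          · rintro ⟨h1 | h1, h2⟩
            · exact absurd h2 h1.2
            · exact h1
          · intro h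
            exact ⟨Or.inr h, hA0 h⟩
      have hinj : Set.InjOn (fun R : Finset Ω => ((R \ D w0) ∪ A w0, R ∩ D w0)) (X : Set (Finset Ω)) := by
        intro R _ R' _ h
        simp only [Prod.mk.injEq] at h
        obtain ⟨h1, h2⟩ := h
        ext o
        by_cases ho : o ∈ D w0
        · have := Finset.ext_iff.1 h2 o
          simp only [mem_inter, ho, and_true] at this
          exact this
        · have := Finset.ext_iff.1 h1 o
          have hoA : o ∉ A w0 := fun h => ho (hA0 h)
          simp only [mem_union, mem_sdiff, ho, not_false_eq_true, and_true, hoA, or_false] at this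
          exact this
      have := Finset.card_le_card_of_injOn _ hmap hinj
      rwa [card_product, card_powerset] at this
    have h2d : (2 : ℝ) ^ (D w0).card ≤ 2 ^ d :=
      pow_le_pow_right₀ (by norm_num) (hd w0 (mem_insert_self _ _))
    have hX0' : (X.card : ℝ) * (2⁻¹ : ℝ) ^ d ≤ X0.card := by
      have h1 : (X.card : ℝ) ≤ X0.card * 2 ^ (D w0).card := by exact_mod_cast hinj
      have h2 : (X.card : ℝ) ≤ X0.card * 2 ^ d :=
        h1.trans (mul_le_mul_of_nonneg_left h2d (by positivity))
      rw [inv_pow, ← div_eq_mul_inv, div_le_iff₀ (by positivity)]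
      exact h2
    have hYr : (Y.card : ℝ) = X.card - X0.card := by
      have : (Y.card : ℝ) + X0.card = X.card := by exact_mod_cast hYX
      linarith
    rw [card_insert_of_notMem hw0, pow_succ]
    have h1 : (0 : ℝ) ≤ 1 - (2⁻¹ : ℝ) ^ d := by
      have : (2⁻¹ : ℝ) ^ d ≤ 1 := pow_le_one₀ (by norm_num) (by norm_num)
      linarith
    calc (Y.card : ℝ) ≤ X.card * (1 - (2⁻¹ : ℝ) ^ d) := by rw [hYr]; linarith
      _ ≤ ((1 - (2⁻¹ : ℝ) ^ d) ^ W.card * 2 ^ Fintype.card Ω) * (1 - (2⁻¹ : ℝ) ^ d) :=
          mul_le_mul_of_nonneg_right ih' h1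
      _ = _ := by ring

end Pool.Agent.W994.AR
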