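import Pool.Agent.W994.AR.PP

/-!
Rich relations primitively positively define all invariant relations.
-/

namespace Pool.Agent.W994.AR

variable {B : Type}

/-- the structure with the relations of Γ and the relations R j -/
def expand {ι : Type} {arΓ : ι → ℕ} (Γ : Str ι arΓ B) {τ : Type} {k : τ → ℕ}
    (R : Str τ k B) : Str (ι ⊕ τ) (Sum.elim arΓ k) B
  | .inl i => Γ i
  | .inr j => R j

/-- some constant map is an endomorphism -/
def ConstEndo {ι : Type} {ar : ι → ℕ} (𝔸 : Str ι ar B) : Prop :=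
  ∃ b : B, ∀ i, ∀ v ∈ 𝔸 i, (fun _ => b) ∈ 𝔸 i

theorem finite_atom {ι : Type} [Finite ι] (ar : ι → ℕ) (V : Type) [Finite V] :
    Finite (Atom ι ar V) := by
  let f : Atom ι ar V → (V × V) ⊕ (Σ i, (Fin (ar i) → V)) := fun φ =>
    match φ with
    | .eq x y => Sum.inl (x, y)
    | .rel i x => Sum.inr ⟨i, x⟩
  apply Finite.of_injective f
  intro φ ψ h
  cases φ <;> cases ψ
  · simp only [f, Sum.inl.injEq, Prod.mk.injEq] at h
    rw [h.1, h.2]
  · simp [f] at h
  · simp [f] at h
  · simp only [f, Sum.inr.injEq, Sigma.mk.injEq] at h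
    obtain ⟨h1, h2⟩ := h
    subst h1
    rw [eq_of_heq h2]

theorem rich_equiv {G : Subgroup (Equiv.Perm B)} {V V' : Type} (e : V ≃ V') {k : ℕ}
    {R : Set (Fin k → B)} (h : Rich G V R) : Rich G V' R := by
  intro v hv
  obtain ⟨w, hw1, hw2⟩ := h (v ∘ e) (by
    obtain ⟨i, j, hij⟩ := hv
    exact ⟨e.symm i, e.symm j, by simpa using hij⟩)
  refine ⟨e ∘ w, hw1, ?_⟩
  intro u hu hs
  have := hw2 (u ∘ e) (by
    obtain ⟨i, j, hij⟩ := hu
    exact ⟨e.symm i, e.symm j, by simpa using hij⟩) (by
    intro hs'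
    apply hs
    obtain ⟨g, hg, h⟩ := hs'
    refine ⟨g, hg, fun i => ?_⟩
    have := h (e.symm i)
    simpa using this)
  exact this

/-- the coordinates used in the definition -/
abbrev Coord {ι : Type} (arΓ : ι → ℕ) (V : Type) : Type := V ⊕ (Fin 3 ⊕ (Σ l : ι, Fin (arΓ l)))

theorem pp_of_rich {G : Subgroup (Equiv.Perm B)} [Nontrivial B] {ι : Type} [Finite ι]
    {arΓ : ι → ℕ} (Γ : Str ι arΓ B) (hΓ : ∀ l, Invar G (Γ l)) {t : ℕ} (ht : 0 < t)
    {k : Fin t → ℕ} (R : ∀ j, Set (Fin (k j) → B)) {V : Type} [Finite V]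
    (hR : ∀ j, Rich G (Coord arΓ V) (R j)) (hc : ¬ ConstEndo (expand Γ R))
    (S : Set (V → B)) (hS : Invar G S) : PP (expand Γ R) S := by
  classical
  set 𝔸 := expand Γ R with h𝔸
  let P : Set (Coord arΓ V → B) := {z | (fun x => z (Sum.inl x)) ∈ S ∧
    z (Sum.inr (Sum.inl 0)) ≠ z (Sum.inr (Sum.inl 1)) ∧
    ∀ l, (Γ l).Nonempty → (fun i => z (Sum.inr (Sum.inr ⟨l, i⟩))) ∈ Γ l}
  have hPnc : ∀ z ∈ P, NC z := fun z hz => ⟨_, _, hz.2.1⟩
  have hPinv : Invar G P := by
    intro g hg z hz
    refine ⟨hS g hg _ hz.1, fun h => hz.2.1 (g.injective h), fun l hl => hΓ l g hg _ (hz.2.2 l hl)⟩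
  let Φ : Set (Atom (ι ⊕ Fin t) (Sum.elim arΓ k) (Coord arΓ V)) := {φ | ∀ p ∈ P, φ.Holds 𝔸 p}
  have hPP : PP 𝔸 P := by
    have hfin : Φ.Finite := by
      have := finite_atom (ι := ι ⊕ Fin t) (Sum.elim arΓ k) (Coord arΓ V)
      exact Set.toFinite _
    have h1 : PP 𝔸 {z : Coord arΓ V → B | ∀ φ ∈ Φ, z ∈ {z | φ.Holds 𝔸 z}} :=
      PP.iInter Φ hfin _ (fun φ _ => PP.atom φ)
    convert h1 using 1
    ext z
    constructor
    · intro hz φ hφ
      exact hφ z hz
    · intro hz
      by_contra hzP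
      by_cases hnc : NC z
      · obtain ⟨w, hw1, hw2⟩ := hR ⟨0, ht⟩ z hnc
        apply hw1
        have hφ : (Atom.rel (Sum.inr ⟨0, ht⟩) w : Atom (ι ⊕ Fin t) (Sum.elim arΓ k) (Coord arΓ V)) ∈ Φ := by
          intro p hp
          exact hw2 p (hPnc p hp) (fun hs => hzP (hs.mem hPinv hp))
        exact hz _ hφ
      · have hconst : ∀ i, z i = z (Sum.inr (Sum.inl 0)) := by
          intro i
          by_contra h
          exact hnc ⟨_, _, h⟩
        set b := z (Sum.inr (Sum.inl 0)) with hb
        have hc' : ¬ ∀ i, ∀ v ∈ 𝔸 i, (fun _ => b) ∈ 𝔸 i := fun h => hc ⟨b, h⟩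
        push Not at hc'
        obtain ⟨i, v, hv, hbi⟩ := hc'
        rcases i with l | j
        · have hφ : (Atom.rel (Sum.inl l) (fun i => Sum.inr (Sum.inr ⟨l, i⟩)) :
              Atom (ι ⊕ Fin t) (Sum.elim arΓ k) (Coord arΓ V)) ∈ Φ := by
            intro p hp
            exact hp.2.2 l ⟨v, hv⟩
          have h2 := hz _ hφ
          apply hbi
          have h3 : (fun i => z (Sum.inr (Sum.inr ⟨l, i⟩))) = (fun _ : Fin (arΓ l) => b) := by
            funext i
            exact hconst _
          have h4 : (fun i => z (Sum.inr (Sum.inr ⟨l, i⟩))) ∈ Γ l := h2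
          rw [h3] at h4
          exact h4
        · obtain ⟨a, ha⟩ := exists_ne b
          let v0 : Coord arΓ V → B := fun x => if x = Sum.inr (Sum.inl 2) then a else b
          have h0 : v0 (Sum.inr (Sum.inl 0)) = b := by simp [v0]
          have h1 : v0 (Sum.inr (Sum.inl 1)) = b := by simp [v0]
          have h2 : v0 (Sum.inr (Sum.inl 2)) = a := by simp [v0]
          obtain ⟨w, hw1, hw2⟩ := hR j v0 ⟨Sum.inr (Sum.inl 2), Sum.inr (Sum.inl 0), by
            rw [h0, h2]; exact ha⟩
          have hv0 : v0 ∉ P := fun h => h.2.1 (by rw [h0, h1])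
          have hφ : (Atom.rel (Sum.inr j) w : Atom (ι ⊕ Fin t) (Sum.elim arΓ k) (Coord arΓ V)) ∈ Φ := by
            intro p hp
            exact hw2 p (hPnc p hp) (fun hs => hv0 (hs.mem hPinv hp))
          have h5 : (fun i => z (w i)) ∈ R j := hz _ hφ
          apply hbi
          have h3 : (fun i => z (w i)) = (fun _ => b) := by
            funext i
            exact hconst _
          rw [h3] at h5
          exact h5
  have h2 := hPP.ex
  convert h2 using 1
  ext v
  constructor
  · intro hv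
    obtain ⟨a, b, hab⟩ := exists_pair_ne B
    refine ⟨fun x => match x with
      | Sum.inl i => if i = 0 then a else b
      | Sum.inr ⟨l, i⟩ => if h : (Γ l).Nonempty then h.some i else a, ?_⟩
    refine ⟨hv, ?_, ?_⟩
    · simpa using hab
    · intro l hl
      have : (fun i => (Sum.elim v (fun x : Fin 3 ⊕ (Σ l : ι, Fin (arΓ l)) => match x with
        | Sum.inl i => if i = 0 then a else b
        | Sum.inr ⟨l, i⟩ => if h : (Γ l).Nonempty then h.some i else a) :
          Coord arΓ V → B) (Sum.inr (Sum.inr ⟨l, i⟩))) = hl.some := by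
        funext i
        simp only [Sum.elim_inr]
        rw [dif_pos hl]
      rw [this]
      exact hl.some_mem
  · rintro ⟨u, hu⟩
    exact hu.1

/-- all invariant relations with few coordinates -/
theorem pp_small {G : Subgroup (Equiv.Perm B)} {ι : Type} {ar : ι → ℕ} {𝔸 : Str ι ar B} (n0 : ℕ)
    (h : ∀ S : Set (Fin n0 → B), Invar G S → PP 𝔸 S) {V : Type} [Finite V] [Nonempty V]
    (hV : Nat.card V ≤ n0) (S : Set (V → B)) (hS : Invar G S) : PP 𝔸 S := by
  classical
  have := Fintype.ofFinite V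
  have hV' : Fintype.card V ≤ Fintype.card (Fin n0) := by
    rwa [Fintype.card_fin, ← Nat.card_eq_fintype_card]
  obtain ⟨f⟩ := Function.Embedding.nonempty_of_card_le hV'
  let s : Fin n0 → V := Function.invFun f
  have hs : Function.LeftInverse s f := Function.leftInverse_invFun f.injective
  let T : Set (Fin n0 → B) := {y | ∃ z ∈ S, y = z ∘ s}
  have hT : Invar G T := by
    rintro g hg y ⟨z, hz, rfl⟩
    exact ⟨fun i => g (z i), hS g hg z hz, rfl⟩
  have h1 := (h T hT).subst s
  convert h1 using 1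
  ext z
  constructor
  · intro hz
    exact ⟨z, hz, rfl⟩
  · rintro ⟨z', hz', h2⟩
    have : z = z' := by
      funext x
      have := congrFun h2 (f x)
      simp only [Function.comp, hs x] at this
      exact this
    rw [this]
    exact hz'

/-- the group is determined locally on p-tuples -/
def Local (G : Subgroup (Equiv.Perm B)) (p : ℕ) : Prop :=
  ∀ (V : Type) [Finite V] [Nonempty V] (v z : V → B),
    (∀ s : Fin p → V, Same G (v ∘ s) (z ∘ s)) → Same G v z

theorem finite_orb {G : Subgroup (Equiv.Perm B)} (hfin : ∀ k, Finite (Orb G (Fin k))) (V : Type)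
    [Finite V] : Finite (Orb G V) := by
  obtain ⟨q, ⟨e⟩⟩ := Finite.exists_equiv_fin V
  have := hfin q
  let f : Orb G V → Orb G (Fin q) := Quotient.map' (s₁ := orb G V) (s₂ := orb G (Fin q))
    (fun v => v ∘ e.symm) (fun u v h => Same.comp h _)
  apply Finite.of_injective f
  intro o o' h
  obtain ⟨u, rfl⟩ := Quotient.exists_rep o
  obtain ⟨v, rfl⟩ := Quotient.exists_rep o'
  apply Quotient.sound
  have h1 : Same G (u ∘ e.symm) (v ∘ e.symm) := Quotient.exact h
  have h2 := h1.comp e
  have e1 : (u ∘ e.symm) ∘ e = u := by funext x; simp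
  have e2 : (v ∘ e.symm) ∘ e = v := by funext x; simp
  rw [e1, e2] at h2
  exact h2

theorem pp_orbit_compl {G : Subgroup (Equiv.Perm B)} [Nontrivial B] {ι : Type} {ar : ι → ℕ}
    {𝔸 : Str ι ar B} (p : ℕ) (hloc : Local G p)
    (h : ∀ (V : Type) [Finite V] [Nonempty V], Nat.card V ≤ p + 4 → ∀ S : Set (V → B),
      Invar G S → PP 𝔸 S) {V : Type} [Finite V] [Nonempty V] (v : V → B) :
    PP 𝔸 {z : V → B | ¬ Same G v z} := by
  classical
  have := Fintype.ofFinite V
  have key : ∀ F : Finset (Fin p → V), PP 𝔸 {z : V ⊕ Fin 2 → B | z (Sum.inr 0) = z (Sum.inr 1) ∨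
      ∃ s ∈ F, ¬ Same G (v ∘ s) (fun i => z (Sum.inl (s i)))} := by
    intro F
    induction F using Finset.induction_on with
    | empty =>
      convert PP.eq (𝔸 := 𝔸) (Sum.inr 0 : V ⊕ Fin 2) (Sum.inr 1) using 1
      ext z
      simp
    | insert s F _ ih =>
      let D : Set (Fin p ⊕ Fin 4 → B) := {x | x (Sum.inr 0) = x (Sum.inr 1) ∨
        ¬ Same G (v ∘ s) (fun i => x (Sum.inl i)) ∨ x (Sum.inr 2) ≠ x (Sum.inr 3)}
      have hD : Invar G D := by
        intro g hg x hx
        rcases hx with hx | hx | hx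
        · exact Or.inl (by simp only; rw [hx])
        · refine Or.inr (Or.inl ?_)
          intro hs
          apply hx
          have h1 : Same G (fun i => x (Sum.inl i)) (fun i => g (x (Sum.inl i))) :=
            ⟨g, hg, fun _ => rfl⟩
          exact hs.trans h1.symm
        · exact Or.inr (Or.inr (fun h => hx (g.injective h)))
      have hDpp := h (Fin p ⊕ Fin 4) (by
        rw [Nat.card_sum, Nat.card_eq_fintype_card, Nat.card_eq_fintype_card, Fintype.card_fin,
          Fintype.card_fin]) D hD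
      have h1 := (hDpp.subst (Sum.elim (fun i => Sum.inl (Sum.inl (s i)))
        (fun i : Fin 4 => if i = 0 then Sum.inl (Sum.inr 0) else if i = 1 then Sum.inl (Sum.inr 1)
          else if i = 2 then Sum.inr 0 else Sum.inr 1) : Fin p ⊕ Fin 4 → (V ⊕ Fin 2) ⊕ Fin 2))
      have h2 := (ih.subst (Sum.elim (fun x => Sum.inl (Sum.inl x)) Sum.inr :
        V ⊕ Fin 2 → (V ⊕ Fin 2) ⊕ Fin 2))
      have h3 := (h1.inter h2).ex
      convert h3 using 1
      ext z
      constructor
      · intro hz
        by_cases hz1 : z (Sum.inr 0) = z (Sum.inr 1) ∨ ¬ Same G (v ∘ s) (fun i => z (Sum.inl (s i)))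
        · -- choose equal witnesses
          refine ⟨fun _ => z (Sum.inr 0), ?_, ?_⟩
          · rcases hz1 with hz1 | hz1
            · exact Or.inl (by simpa using hz1)
            · exact Or.inr (Or.inl (by simpa using hz1))
          · exact Or.inl (by simp)
        · have hz2 : ∃ s ∈ F, ¬ Same G (v ∘ s) (fun i => z (Sum.inl (s i))) := by
            rcases hz with hz | ⟨s', hs', hz⟩
            · exact absurd (Or.inl hz) hz1
            · rcases Finset.mem_insert.1 hs' with rfl | hs''
              · exact absurd (Or.inr hz) hz1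
              · exact ⟨s', hs'', hz⟩
          obtain ⟨a, b, hab⟩ := exists_pair_ne B
          refine ⟨fun i => if i = 0 then a else b, ?_, ?_⟩
          · refine Or.inr (Or.inr ?_)
            simpa using hab
          · obtain ⟨s', hs', hz3⟩ := hz2
            exact Or.inr ⟨s', hs', by simpa using hz3⟩
      · rintro ⟨u, hu1, hu2⟩
        rcases hu1 with hu1 | hu1 | hu1
        · exact Or.inl (by simpa using hu1)
        · refine Or.inr ⟨s, Finset.mem_insert_self _ _, by simpa using hu1⟩
        · rcases hu2 with hu2 | ⟨s', hs', hu2⟩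
          · exfalso
            apply hu1
            simpa using hu2
          · exact Or.inr ⟨s', Finset.mem_insert_of_mem hs', by simpa using hu2⟩
  have hne : PP 𝔸 {x : Fin 2 → B | x 0 ≠ x 1} := by
    apply h (Fin 2)
    · rw [Nat.card_eq_fintype_card, Fintype.card_fin]; omega
    · intro g _ x hx hxx
      exact hx (g.injective hxx)
  have h1 := ((key Finset.univ).inter (hne.subst (Sum.inr : Fin 2 → V ⊕ Fin 2))).ex
  convert h1 using 1
  ext z
  constructor
  · intro hz
    have hz1 : ∃ s : Fin p → V, ¬ Same G (v ∘ s) (z ∘ s) := by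
      by_contra hcon
      push Not at hcon
      exact hz (hloc V v z hcon)
    obtain ⟨s, hs⟩ := hz1
    obtain ⟨a, b, hab⟩ := exists_pair_ne B
    refine ⟨fun i => if i = 0 then a else b, Or.inr ⟨s, Finset.mem_univ _, hs⟩, ?_⟩
    show _ ≠ _
    simpa using hab
  · rintro ⟨u, hu1, hu2⟩
    intro hs
    rcases hu1 with hu1 | ⟨s, _, hu1⟩
    · exact hu2 (by simpa using hu1)
    · exact hu1 (hs.comp s)

/-- all invariant relations are pp-definable -/
theorem pp_all {G : Subgroup (Equiv.Perm B)} [Nontrivial B] {ι : Type} {ar : ι → ℕ}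
    {𝔸 : Str ι ar B} (hfin : ∀ k, Finite (Orb G (Fin k))) (p : ℕ) (hloc : Local G p)
    (h : ∀ S : Set (Fin (p + 4) → B), Invar G S → PP 𝔸 S) {V : Type} [Finite V]
    (S : Set (V → B)) (hS : Invar G S) : PP 𝔸 S := by
  classical
  -- first for nonempty V
  have key : ∀ (V : Type) [Finite V] [Nonempty V] (S : Set (V → B)), Invar G S → PP 𝔸 S := by
    intro V _ _ S hS
    have := finite_orb hfin V
    have h1 : PP 𝔸 {z : V → B | ∀ o ∈ {o : Orb G V | o.out ∉ S}, z ∈ {z | ¬ Same G o.out z}} :=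
      PP.iInter _ (Set.toFinite _) _ (fun o _ => pp_orbit_compl p hloc
        (fun V _ _ hV S hS => pp_small (p + 4) h hV S hS) o.out)
    convert h1 using 1
    ext z
    constructor
    · intro hz o ho hs
      exact ho (hs.symm.mem hS hz)
    · intro hz
      by_contra hzS
      have h2 : Same G (Quotient.mk (orb G V) z).out z :=
        @Quotient.exact _ (orb G V) _ _ (Quotient.out_eq (Quotient.mk (orb G V) z))
      exact hz (Quotient.mk (orb G V) z) (fun h => hzS (h2.mem hS h)) h2
  have h1 := (key (V ⊕ Fin 1) {z | z ∘ Sum.inl ∈ S} (fun g hg z hz => hS g hg _ hz)).ex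
  convert h1 using 1
  ext v
  constructor
  · intro hv
    exact ⟨fun _ => Classical.arbitrary B, hv⟩
  · rintro ⟨u, hu⟩
    exact hu

end Pool.Agent.W994.AR
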