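import Pool.Agent.W994.AR.Hom

/-!
Expansions of finitely bounded homogeneous structures by invariant relations are finitely bounded
and homogeneous.
-/

namespace Pool.Agent.W994.AR

variable {B : Type}

/-- 𝕏 embeds into 𝔹. -/
def Embeds {σ : Type} {ar : σ → ℕ} {X : Type} (𝕏 : Str σ ar X) (𝔹 : Str σ ar B) : Prop :=
  ∃ e : X → B, Function.Injective e ∧ ∀ i v, v ∈ 𝕏 i ↔ (fun j => e (v j)) ∈ 𝔹 i

/-- Finitely bounded: there is a finite set N of finite structures such that a finite structure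
embeds into 𝔹 if and only if no member of N embeds into it. -/
def FinitelyBounded {σ : Type} {ar : σ → ℕ} (𝔹 : Str σ ar B) : Prop :=
  ∃ N : Set (Σ n : ℕ, Str σ ar (Fin n)), N.Finite ∧
    ∀ (n : ℕ) (𝕏 : Str σ ar (Fin n)), Embeds 𝕏 𝔹 ↔ ∀ Y ∈ N, ¬ Embeds Y.2 𝕏

theorem Embeds.trans {σ : Type} {ar : σ → ℕ} {X Y : Type} {𝕏 : Str σ ar X} {𝕐 : Str σ ar Y}
    {𝔹 : Str σ ar B} (h : Embeds 𝕏 𝕐) (h' : Embeds 𝕐 𝔹) : Embeds 𝕏 𝔹 := by
  obtain ⟨e, he, h⟩ := h
  obtain ⟨e', he', h'⟩ := h'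
  exact ⟨e' ∘ e, he'.comp he, fun i v => (h i v).trans (h' i _)⟩

/-- the reduct to the first half of the signature -/
def red {σ τ : Type} {ar : σ → ℕ} {k : τ → ℕ} {X : Type} (𝕏 : Str (σ ⊕ τ) (Sum.elim ar k) X) :
    Str σ ar X := fun i => 𝕏 (Sum.inl i)

theorem homogeneous_expand {σ τ : Type} {ar : σ → ℕ} {k : τ → ℕ} {𝔹 : Str σ ar B}
    (hB : Homogeneous 𝔹) (R : Str τ k B) (hR : ∀ j, Invar (autGroup 𝔹) (R j)) :
    Homogeneous (expand 𝔹 R) := by
  intro F h hinj hh
  obtain ⟨g, hg, hgF⟩ := hB F h hinj (fun i v hv => hh (Sum.inl i) v hv)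
  refine ⟨g, ?_, hgF⟩
  rintro (i | j) v
  · exact hg i v
  · constructor
    · intro hv
      exact hR j g hg v hv
    · intro hv
      have h1 := hR j g⁻¹ ((autGroup 𝔹).inv_mem hg) _ hv
      have h2 : (fun i => g⁻¹ (g (v i))) = v := by funext i; simp
      have h3 : (fun i => g⁻¹ (g (v i))) ∈ R j := h1
      rw [h2] at h3
      exact h3

theorem finite_str {σ : Type} [Finite σ] (ar : σ → ℕ) (n : ℕ) : Finite (Str σ ar (Fin n)) := by
  unfold Str
  infer_instance

theorem finitelyBounded_expand {σ τ : Type} [Finite σ] [Finite τ] {ar : σ → ℕ} {k : τ → ℕ}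
    {𝔹 : Str σ ar B} (hB : Homogeneous 𝔹) (hF : FinitelyBounded 𝔹) (R : Str τ k B)
    (hR : ∀ j, Invar (autGroup 𝔹) (R j)) : FinitelyBounded (expand 𝔹 R) := by
  classical
  have := Fintype.ofFinite τ
  obtain ⟨N, hN, hNB⟩ := hF
  let K : ℕ := Finset.univ.sup k
  have hK : ∀ j, k j ≤ K := fun j => Finset.le_sup (f := k) (Finset.mem_univ j)
  let N1 : Set (Σ n : ℕ, Str (σ ⊕ τ) (Sum.elim ar k) (Fin n)) :=
    {Y | (⟨Y.1, red Y.2⟩ : Σ n : ℕ, Str σ ar (Fin n)) ∈ N}
  let N2 : Set (Σ n : ℕ, Str (σ ⊕ τ) (Sum.elim ar k) (Fin n)) :=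
    {Y | Y.1 ≤ K ∧ ¬ Embeds Y.2 (expand 𝔹 R)}
  have hfinK : ∀ K : ℕ, {Y : Σ n : ℕ, Str (σ ⊕ τ) (Sum.elim ar k) (Fin n) | Y.1 ≤ K}.Finite := by
    intro K
    have h1 : {Y : Σ n : ℕ, Str (σ ⊕ τ) (Sum.elim ar k) (Fin n) | Y.1 ≤ K} ⊆
        ⋃ n ∈ Set.Iic K, Set.range (fun Z : Str (σ ⊕ τ) (Sum.elim ar k) (Fin n) =>
          (⟨n, Z⟩ : Σ n : ℕ, Str (σ ⊕ τ) (Sum.elim ar k) (Fin n))) := by
      rintro ⟨n, Z⟩ hZ
      simp only [Set.mem_iUnion]
      exact ⟨n, hZ, Z, rfl⟩
    refine Set.Finite.subset (Set.Finite.biUnion (Set.finite_Iic K) (fun n _ => ?_)) h1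
    have := finite_str (σ := σ ⊕ τ) (Sum.elim ar k) n
    exact Set.finite_range _
  refine ⟨N1 ∪ N2, ?_, ?_⟩
  · apply Set.Finite.union
    · obtain ⟨K', hK'⟩ : ∃ K' : ℕ, ∀ Y ∈ N, Y.1 ≤ K' := by
        have := (hN.image (fun Y => Y.1)).bddAbove
        obtain ⟨K', hK'⟩ := this
        exact ⟨K', fun Y hY => hK' ⟨Y, hY, rfl⟩⟩
      exact (hfinK K').subset (fun Y hY => hK' _ hY)
    · exact (hfinK K).subset (fun Y hY => hY.1)
  · intro n 𝕏
    constructor
    · intro hX Y hY hYX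
      have hYB := hYX.trans hX
      rcases hY with hY | hY
      · have h1 : Embeds (red Y.2) 𝔹 := by
          obtain ⟨e, he, h⟩ := hYB
          exact ⟨e, he, fun i v => h (Sum.inl i) v⟩
        exact (hNB _ _).1 h1 _ hY ⟨id, Function.injective_id, fun i v => Iff.rfl⟩
      · exact hY.2 hYB
    · intro hX
      -- the reduct embeds
      have h1 : Embeds (red 𝕏) 𝔹 := by
        rw [hNB]
        rintro ⟨m, Y⟩ hY ⟨e, he, h⟩
        let Y' : Str (σ ⊕ τ) (Sum.elim ar k) (Fin m) := fun i => {v | (fun j => e (v j)) ∈ 𝕏 i}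
        have hY' : red Y' = Y := by
          funext i
          ext v
          exact (h i v).symm
        apply hX ⟨m, Y'⟩
        · refine Or.inl ?_
          show (⟨m, red Y'⟩ : Σ n : ℕ, Str σ ar (Fin n)) ∈ N
          rw [hY']
          exact hY
        · exact ⟨e, he, fun i v => Iff.rfl⟩
      obtain ⟨e, he, h⟩ := h1
      refine ⟨e, he, ?_⟩
      rintro (i | j) v
      · exact h i v
      · -- the substructure on the range of v
        have hcardle : Fintype.card (Set.range v) ≤ K := by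
          refine le_trans ?_ (hK j)
          exact (Fintype.card_range_le v).trans (le_of_eq (Fintype.card_fin _))
        let m := Fintype.card (Set.range v)
        let ε : Fin m ≃ Set.range v := (Fintype.equivFin (Set.range v)).symm
        let f : Fin m → Fin n := fun x => (ε x : Fin n)
        have hf : Function.Injective f := Subtype.val_injective.comp ε.injective
        let Y' : Str (σ ⊕ τ) (Sum.elim ar k) (Fin m) := fun i => {v | (fun j => f (v j)) ∈ 𝕏 i}
        have hYX : Embeds Y' 𝕏 := ⟨f, hf, fun i v => Iff.rfl⟩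
        have hYB : Embeds Y' (expand 𝔹 R) := by
          by_contra hcon
          exact hX ⟨m, Y'⟩ (Or.inr ⟨hcardle, hcon⟩) hYX
        obtain ⟨e', he', h'⟩ := hYB
        have hsame : Same (autGroup 𝔹) e' (e ∘ f) := by
          apply hom_same hB
          · intro a b
            exact (he'.eq_iff).trans ((he.comp hf).eq_iff).symm
          · intro i s
            have a1 := h' (Sum.inl i) s
            have a2 := h i (fun j => f (s j))
            exact a1.symm.trans a2
        -- v factors through f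
        have hv : ∀ a, ∃ x, f x = v a := by
          intro a
          refine ⟨ε.symm ⟨v a, a, rfl⟩, ?_⟩
          show ((ε (ε.symm ⟨v a, a, rfl⟩) : Set.range v) : Fin n) = v a
          rw [Equiv.apply_symm_apply]
        choose s hs using hv
        have hvs : v = fun a => f (s a) := by
          funext a
          exact (hs a).symm
        have a1 := h' (Sum.inr j) s
        have a2 : (fun a => e' (s a)) ∈ R j ↔ (fun a => e (f (s a))) ∈ R j :=
          Same.mem_iff (hsame.comp s) (hR j)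
        rw [hvs]
        exact a1.trans a2

end Pool.Agent.W994.AR
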