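import Pool.Agent.W994.AR.FB
import Pool.Agent.W994.AR.Bound

/-!
Assembly.
-/

namespace Pool.Agent.W994.AR

variable {B : Type}

/-- The strongest possible hardness of a structure 𝔸 with respect to a permutation group G: 𝔸
pp-constructs K_3, every G-invariant relation is pp-definable in 𝔸, and every polymorphism of 𝔸
depends on one variable only, through a map which agrees with elements of G on finite sets. -/
def PPMax (G : Subgroup (Equiv.Perm B)) {ι : Type} {ar : ι → ℕ} (𝔸 : Str ι ar B) : Prop :=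
  PPConstructsK3 𝔸 ∧
  (∀ (n : ℕ) (S : Set (Fin n → B)), Invar G S → PPDef 𝔸 S) ∧
  (∀ (n : ℕ) (f : (Fin n → B) → B), IsPol 𝔸 f →
    ∃ (i : Fin n) (e : B → B), InClosure G e ∧ ∀ x, f x = e (x i))

theorem const_csp {ι : Type} {ar : ι → ℕ} {𝔸 : Str ι ar B} (h : ConstEndo 𝔸) (X : Type)
    (𝕏 : Str ι ar X) : (∃ f : X → B, ∀ i, ∀ v ∈ 𝕏 i, (fun j => f (v j)) ∈ 𝔸 i) ↔
      ∀ i, (𝕏 i).Nonempty → (𝔸 i).Nonempty := by
  obtain ⟨b, hb⟩ := h
  constructor
  · rintro ⟨f, hf⟩ i ⟨v, hv⟩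
    exact ⟨_, hf i v hv⟩
  · intro h
    refine ⟨fun _ => b, ?_⟩
    intro i v hv
    obtain ⟨u, hu⟩ := h i ⟨v, hv⟩
    exact hb i u hu

/-- the number of coordinates that has to be treated -/
noncomputable def dim {σ ι : Type} [Finite σ] [Finite ι] (arB : σ → ℕ) (arΓ : ι → ℕ) : ℕ := by
  classical
  exact
  letI := Fintype.ofFinite σ
  letI := Fintype.ofFinite ι
  Nat.card (Coord arΓ (Fin (max 2 (Finset.univ.sup arB) + 4)))

theorem max_of_rich {σ ι : Type} [Nontrivial B] [Finite σ] [Finite ι] {arB : σ → ℕ}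
    {arΓ : ι → ℕ} (𝔹 : Str σ arB B) (h𝔹 : Homogeneous 𝔹) (Γ : Str ι arΓ B)
    (hΓ : ∀ l, Invar (autGroup 𝔹) (Γ l)) {t : ℕ} (ht : 0 < t) {k : Fin t → ℕ}
    (R : ∀ j, InvRel (autGroup 𝔹) (Fin (k j)))
    (hR : ∀ j, Rich (autGroup 𝔹) (Fin (dim arB arΓ)) (R j).1)
    (hc : ¬ ConstEndo (expand Γ (fun j => (R j).1))) :
    PPMax (autGroup 𝔹) (expand Γ (fun j => (R j).1)) := by
  classical
  letI := Fintype.ofFinite σ
  letI := Fintype.ofFinite ι
  set p := max 2 (Finset.univ.sup arB) with hp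
  have hloc : Local (autGroup 𝔹) p := hom_local h𝔹 p (le_max_left _ _)
    (fun i => (Finset.le_sup (f := arB) (Finset.mem_univ i)).trans (le_max_right _ _))
  have hfin : ∀ k, Finite (Orb (autGroup 𝔹) (Fin k)) := fun k => hom_finite h𝔹 (Fin k)
  have hR' : ∀ j, Rich (autGroup 𝔹) (Coord arΓ (Fin (p + 4))) (R j).1 := by
    intro j
    have e : Fin (dim arB arΓ) ≃ Coord arΓ (Fin (p + 4)) := by
      have h1 : dim arB arΓ = Nat.card (Coord arΓ (Fin (p + 4))) := rfl
      rw [h1]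
      exact (Finite.equivFin _).symm
    exact rich_equiv e (hR j)
  have hall : ∀ (V : Type) [Finite V] (S : Set (V → B)), Invar (autGroup 𝔹) S →
      PP (expand Γ (fun j => (R j).1)) S := by
    intro V _ S hS
    exact pp_all hfin p hloc (fun S hS => pp_of_rich Γ hΓ ht _ hR' hc S hS) S hS
  exact ⟨k3_of_all hall, fun n S hS => (hall (Fin n) S hS).toPPDef,
    fun n f hf => pol_unary hall f hf⟩

theorem dim_pos {σ ι : Type} [Finite σ] [Finite ι] (arB : σ → ℕ) (arΓ : ι → ℕ) :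
    0 < dim arB arΓ := by
  unfold dim
  have : Nonempty (Coord arΓ (Fin (max 2 (@Finset.sup ℕ σ _ _ (@Finset.univ σ (Fintype.ofFinite σ)) arB) + 4))) :=
    ⟨Sum.inl ⟨0, by omega⟩⟩
  exact Nat.card_pos

theorem dim_ge {σ ι : Type} [Finite σ] [Finite ι] (arB : σ → ℕ) (arΓ : ι → ℕ) :
    3 ≤ dim arB arΓ := by
  unfold dim
  rw [Nat.card_sum, Nat.card_eq_fintype_card, Fintype.card_fin]
  omega

/-- rich relations are nonempty -/
theorem rich_nonempty {G : Subgroup (Equiv.Perm B)} [Nontrivial B] {M : ℕ} (hM : 3 ≤ M) {k : ℕ}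
    {R : Set (Fin k → B)} (h : Rich G (Fin M) R) : R.Nonempty := by
  obtain ⟨a, b, hab⟩ := exists_pair_ne B
  let v : Fin M → B := fun i => if (i : ℕ) ≤ 1 then a else b
  let u : Fin M → B := fun i => if (i : ℕ) = 0 then a else b
  have hv0 : v ⟨0, by omega⟩ = a := by simp [v]
  have hv1 : v ⟨1, by omega⟩ = a := by simp [v]
  have hv2 : v ⟨2, by omega⟩ = b := by simp [v]
  have hu0 : u ⟨0, by omega⟩ = a := by simp [u]
  have hu1 : u ⟨1, by omega⟩ = b := by simp [u]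
  obtain ⟨w, _, hw⟩ := h v ⟨⟨0, by omega⟩, ⟨2, by omega⟩, by rw [hv0, hv2]; exact hab⟩
  refine ⟨u ∘ w, hw u ⟨⟨0, by omega⟩, ⟨1, by omega⟩, by rw [hu0, hu1]; exact hab⟩ ?_⟩
  rintro ⟨g, _, hg⟩
  have h0 := hg ⟨0, by omega⟩
  have h1 := hg ⟨1, by omega⟩
  rw [hu0, hv0] at h0
  rw [hu1, hv1, ← h0] at h1
  exact hab (g.injective h1).symm

/-- The number of orbits of G on B all of whose points b have (b,...,b) in every nonempty relation
of Γ. -/
noncomputable def constOrbits (G : Subgroup (Equiv.Perm B)) {ι : Type} {arΓ : ι → ℕ}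
    (Γ : Str ι arΓ B) : ℕ :=
  Set.ncard {O : Set B | ∃ b, O = {x | ∃ g ∈ G, g b = x} ∧
    ∀ l, (Γ l).Nonempty → (fun _ => b) ∈ Γ l}

theorem const_count {G : Subgroup (Equiv.Perm B)} {ι : Type} {arΓ : ι → ℕ}
    (Γ : Str ι arΓ B) (k : ℕ) (hk : 1 ≤ k) [Finite (Orb G (Fin k))] :
    Nat.card {R : InvRel G (Fin k) // ∀ b, (∀ l, (Γ l).Nonempty → (fun _ => b) ∈ Γ l) →
      (fun _ => b) ∉ R.1} * 2 ^ constOrbits G Γ = Nat.card (InvRel G (Fin k)) := by
  classical
  have := Fintype.ofFinite (Orb G (Fin k))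
  let K : Set (Orb G (Fin k)) := {o | ∃ b, o = Quotient.mk (orb G (Fin k)) (fun _ => b) ∧
    ∀ l, (Γ l).Nonempty → (fun _ => b) ∈ Γ l}
  have hsame : ∀ b b', Quotient.mk (orb G (Fin k)) (fun _ => b) =
      Quotient.mk (orb G (Fin k)) (fun _ => b') ↔ ∃ g ∈ G, g b = b' := by
    intro b b'
    constructor
    · intro h
      obtain ⟨g, hg, h⟩ : Same G (fun _ : Fin k => b) (fun _ => b') := Quotient.exact h
      exact ⟨g, hg, h ⟨0, hk⟩⟩
    · rintro ⟨g, hg, h⟩
      exact Quotient.sound (⟨g, hg, fun _ => h⟩ : Same G (fun _ : Fin k => b) (fun _ => b'))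
  have hKcard : K.ncard = constOrbits G Γ := by
    unfold constOrbits
    let ψ : Orb G (Fin k) → Set B := fun o => {x | o = Quotient.mk (orb G (Fin k)) (fun _ => x)}
    have himg : {O : Set B | ∃ b, O = {x | ∃ g ∈ G, g b = x} ∧
        ∀ l, (Γ l).Nonempty → (fun _ => b) ∈ Γ l} = ψ '' K := by
      ext O
      constructor
      · rintro ⟨b, rfl, hb⟩
        refine ⟨_, ⟨b, rfl, hb⟩, ?_⟩
        ext x
        exact hsame b x
      · rintro ⟨_, ⟨b, rfl, hb⟩, rfl⟩
        refine ⟨b, ?_, hb⟩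
        ext x
        exact hsame b x
    rw [himg, Set.InjOn.ncard_image]
    rintro _ ⟨b, rfl, _⟩ _ ⟨b', rfl, _⟩ h
    have h1 : b ∈ ψ (Quotient.mk (orb G (Fin k)) (fun _ => b)) := rfl
    rw [h] at h1
    exact h1.symm
  let E1 : {R : InvRel G (Fin k) // ∀ b, (∀ l, (Γ l).Nonempty → (fun _ => b) ∈ Γ l) →
      (fun _ => b) ∉ R.1} ≃ {X : Set (Orb G (Fin k)) // ∀ o ∈ K, o ∉ X} :=
    (invEquiv G (Fin k)).subtypeEquiv (by
      intro R
      have hmem : ∀ v : Fin k → B, Quotient.mk (orb G (Fin k)) v ∈ invEquiv G (Fin k) R ↔ v ∈ R.1 := by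
        intro v
        constructor
        · rintro ⟨u, hu, h⟩
          exact Same.mem (Quotient.exact h) R.2 hu
        · intro hv
          exact ⟨v, hv, rfl⟩
      constructor
      · rintro h o ⟨b, rfl, hb⟩ ho
        exact h b hb ((hmem _).1 ho)
      · intro h b hb hR
        exact h _ ⟨b, rfl, hb⟩ ((hmem _).2 hR))
  let E2 : {X : Set (Orb G (Fin k)) // ∀ o ∈ K, o ∉ X} ≃ Set {o : Orb G (Fin k) // o ∉ K} :=
    { toFun := fun X => {o | o.1 ∈ X.1}
      invFun := fun Y => ⟨{o | ∃ h : o ∉ K, (⟨o, h⟩ : {o : Orb G (Fin k) // o ∉ K}) ∈ Y}, by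
        rintro o ho ⟨h, _⟩
        exact h ho⟩
      left_inv := by
        rintro ⟨X, hX⟩
        apply Subtype.ext
        ext o
        constructor
        · rintro ⟨_, h⟩
          exact h
        · intro h
          exact ⟨fun hK => hX o hK h, h⟩
      right_inv := by
        intro Y
        ext ⟨o, ho⟩
        constructor
        · rintro ⟨_, h⟩
          exact h
        · intro h
          exact ⟨ho, h⟩ }
  rw [Nat.card_congr (E1.trans E2), Nat.card_congr (invEquiv G (Fin k)), Nat.card_eq_fintype_card,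
    Fintype.card_set, Nat.card_eq_fintype_card, Fintype.card_set, ← pow_add, ← hKcard]
  congr 1
  have h1 : Fintype.card {o : Orb G (Fin k) // o ∉ K} = Fintype.card (Orb G (Fin k)) - Fintype.card K := by
    exact Fintype.card_subtype_compl (fun o => o ∈ K)
  have h2 : Fintype.card K = K.ncard := by
    rw [← Nat.card_eq_fintype_card]
    rfl
  have h3 : Fintype.card K ≤ Fintype.card (Orb G (Fin k)) := Fintype.card_subtype_le _
  omega

end Pool.Agent.W994.AR
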