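import Pool.Agent.W994.AR.Det

/-!
Homogeneous structures, pp-constructions of K_3, polymorphisms.
-/

namespace Pool.Agent.W994.AR

variable {B : Type}

/-- The automorphism group of a relational structure. -/
def autGroup {σ : Type} {ar : σ → ℕ} (𝔹 : Str σ ar B) : Subgroup (Equiv.Perm B) where
  carrier := {g | ∀ i v, v ∈ 𝔹 i ↔ (fun j => g (v j)) ∈ 𝔹 i}
  one_mem' := by
    intro i v
    rfl
  mul_mem' := by
    intro g h hg hh i v
    rw [hh i v, hg i (fun j => h (v j))]
    rfl
  inv_mem' := by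
    intro g hg i v
    have h1 := hg i (fun j => g⁻¹ (v j))
    have h2 : (fun j => g (g⁻¹ (v j))) = v := by
      funext j
      simp
    rw [h2] at h1
    exact h1.symm

/-- Homogeneous: every isomorphism between finite substructures extends to an automorphism. -/
def Homogeneous {σ : Type} {ar : σ → ℕ} (𝔹 : Str σ ar B) : Prop :=
  ∀ (F : Finset B) (h : B → B), (∀ x ∈ F, ∀ y ∈ F, h x = h y → x = y) →
    (∀ (i : σ) (v : Fin (ar i) → B), (∀ j, v j ∈ F) → (v ∈ 𝔹 i ↔ (fun j => h (v j)) ∈ 𝔹 i)) →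
    ∃ g ∈ autGroup 𝔹, ∀ x ∈ F, g x = h x

theorem hom_same {σ : Type} {ar : σ → ℕ} {𝔹 : Str σ ar B} (hB : Homogeneous 𝔹) {V : Type}
    [Finite V] (v z : V → B) (h1 : ∀ i j, v i = v j ↔ z i = z j)
    (h2 : ∀ i (s : Fin (ar i) → V), v ∘ s ∈ 𝔹 i ↔ z ∘ s ∈ 𝔹 i) : Same (autGroup 𝔹) v z := by
  classical
  let F : Finset B := (Set.finite_range v).toFinset
  have hF : ∀ x, x ∈ F ↔ ∃ i, v i = x := by
    intro x
    simp [F]
  let h : B → B := fun x => if hx : ∃ i, v i = x then z hx.choose else x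
  have hv : ∀ i, h (v i) = z i := by
    intro i
    have hx : ∃ i', v i' = v i := ⟨i, rfl⟩
    simp only [h, dif_pos hx]
    exact (h1 _ _).1 hx.choose_spec
  obtain ⟨g, hg, hgF⟩ := hB F h (by
    intro x hx y hy hxy
    obtain ⟨i, rfl⟩ := (hF x).1 hx
    obtain ⟨j, rfl⟩ := (hF y).1 hy
    rw [hv, hv] at hxy
    exact (h1 _ _).2 hxy) (by
    intro i y hy
    have hc : ∀ j, ∃ l, v l = y j := fun j => (hF _).1 (hy j)
    choose s hs using hc
    have e1 : y = v ∘ s := by funext j; exact (hs j).symm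
    have e2 : (fun j => h (y j)) = z ∘ s := by
      funext j
      simp only [Function.comp]
      rw [← hs j, hv]
    rw [e2, e1]
    exact h2 i s)
  refine ⟨g, hg, fun i => ?_⟩
  rw [hgF (v i) ((hF _).2 ⟨i, rfl⟩), hv]

theorem hom_local {σ : Type} {ar : σ → ℕ} {𝔹 : Str σ ar B} (hB : Homogeneous 𝔹) (p : ℕ)
    (hp2 : 2 ≤ p) (hp : ∀ i, ar i ≤ p) : Local (autGroup 𝔹) p := by
  intro V _ _ v z h
  apply hom_same hB
  · intro i j
    let s : Fin p → V := fun x => if (x : ℕ) = 0 then i else j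
    obtain ⟨g, _, hg⟩ := h s
    have h0 := hg ⟨0, by omega⟩
    have h1 := hg ⟨1, by omega⟩
    simp only [Function.comp, s, if_true, one_ne_zero, if_false] at h0 h1
    rw [← h0, ← h1]
    exact g.injective.eq_iff.symm
  · intro i s0
    by_cases har : ar i = 0
    · have : v ∘ s0 = z ∘ s0 := by
        funext j
        exact absurd j.2 (by omega)
      rw [this]
    · let s : Fin p → V := fun x => s0 ⟨min x (ar i - 1), by omega⟩
      obtain ⟨g, hg, h'⟩ := h s
      have e : z ∘ s0 = fun j => g ((v ∘ s0) j) := by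
        funext j
        have h1 := h' ⟨j, lt_of_lt_of_le j.2 (hp i)⟩
        simp only [Function.comp, s] at h1
        have h2 : (⟨min (j : ℕ) (ar i - 1), by omega⟩ : Fin (ar i)) = j := by
          apply Fin.ext
          simp only
          have := j.2
          omega
        rw [h2] at h1
        exact h1.symm
      rw [e]
      exact hg i (v ∘ s0)

theorem hom_finite {σ : Type} [Finite σ] {ar : σ → ℕ} {𝔹 : Str σ ar B} (hB : Homogeneous 𝔹)
    (V : Type) [Finite V] : Finite (Orb (autGroup 𝔹) V) := by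
  let f : (V → B) → (V → V → Prop) × (∀ i, (Fin (ar i) → V) → Prop) := fun v =>
    (fun i j => v i = v j, fun i s => v ∘ s ∈ 𝔹 i)
  apply Finite.of_injective (fun o : Orb (autGroup 𝔹) V => f o.out)
  intro o o' h
  simp only [f, Prod.mk.injEq] at h
  have h1 : Same (autGroup 𝔹) o.out o'.out := hom_same hB _ _
    (fun i j => by have := congrFun (congrFun h.1 i) j; exact iff_of_eq this)
    (fun i s => by have := congrFun (congrFun h.2 i) s; exact iff_of_eq this)
  have h2 : (Quotient.mk (orb (autGroup 𝔹) V) o.out) = Quotient.mk (orb (autGroup 𝔹) V) o'.out :=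
    Quotient.sound h1
  rwa [Quotient.out_eq, Quotient.out_eq] at h2

/-- 𝔸 pp-constructs K_3: some binary relation E on B^n (n ≥ 1), pp-definable as a relation of
arity 2n, such that (B^n; E) is homomorphically equivalent to ({0,1,2}; ≠). -/
def PPConstructsK3 {ι : Type} {ar : ι → ℕ} (𝔸 : Str ι ar B) : Prop :=
  ∃ (n : ℕ) (E : Set (Fin n ⊕ Fin n → B)), 1 ≤ n ∧ PPDef 𝔸 E ∧
    (∃ f : Fin 3 → (Fin n → B), ∀ i j, i ≠ j → Sum.elim (f i) (f j) ∈ E) ∧
    (∃ g : (Fin n → B) → Fin 3, ∀ x y, Sum.elim x y ∈ E → g x ≠ g y)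

/-- f is an n-ary polymorphism -/
def IsPol {ι : Type} {ar : ι → ℕ} (𝔸 : Str ι ar B) {n : ℕ} (f : (Fin n → B) → B) : Prop :=
  ∀ (i : ι) (v : Fin n → Fin (ar i) → B), (∀ a, v a ∈ 𝔸 i) → (fun j => f (fun a => v a j)) ∈ 𝔸 i

theorem IsPol.preserves {ι : Type} {ar : ι → ℕ} {𝔸 : Str ι ar B} {n : ℕ} {f : (Fin n → B) → B}
    (hf : IsPol 𝔸 f) {V : Type} {S : Set (V → B)} (hS : PP 𝔸 S) (v : Fin n → V → B)
    (hv : ∀ a, v a ∈ S) : (fun x => f (fun a => v a x)) ∈ S := by
  obtain ⟨W, _, Φ, _, h⟩ := hS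
  have h1 := fun a => (h (v a)).1 (hv a)
  choose u hu using h1
  rw [h]
  refine ⟨fun x => f (fun a => u a x), ?_⟩
  intro φ hφ
  have h2 := fun a => hu a φ hφ
  have h3 : (Sum.elim (fun x => f (fun a => v a x)) (fun x => f (fun a => u a x))) =
      fun x => f (fun a => Sum.elim (v a) (u a) x) := by
    funext x
    cases x <;> rfl
  rw [h3]
  cases φ with
  | eq x y =>
    show f _ = f _
    congr 1
    funext a
    exact h2 a
  | rel i x =>
    exact hf i (fun a j => Sum.elim (v a) (u a) (x j)) h2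

/-- e agrees with elements of G on finite sets -/
def InClosure (G : Subgroup (Equiv.Perm B)) (e : B → B) : Prop :=
  ∀ F : Finset B, ∃ g ∈ G, ∀ x ∈ F, e x = g x

theorem pol_unary {G : Subgroup (Equiv.Perm B)} [Nontrivial B] {ι : Type} {ar : ι → ℕ}
    {𝔸 : Str ι ar B} (hall : ∀ (V : Type) [Finite V] (S : Set (V → B)), Invar G S → PP 𝔸 S)
    {n : ℕ} (f : (Fin n → B) → B) (hf : IsPol 𝔸 f) :
    ∃ (i : Fin n) (e : B → B), InClosure G e ∧ ∀ x, f x = e (x i) := by
  classical
  -- f depends on at most one coordinate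
  have hD : PP 𝔸 {z : Fin 4 → B | z 0 = z 1 ∨ z 2 = z 3} := by
    apply hall
    rintro g _ z (hz | hz)
    · exact Or.inl (by simp only; rw [hz])
    · exact Or.inr (by simp only; rw [hz])
  have hdep : ∀ i j : Fin n, i ≠ j → ∀ x x' y y' : Fin n → B, (∀ l, l ≠ i → x l = x' l) →
      (∀ l, l ≠ j → y l = y' l) → f x = f x' ∨ f y = f y' := by
    intro i j hij x x' y y' hx hy
    have h1 := hf.preserves hD (fun a => ![x a, x' a, y a, y' a]) (by
      intro a
      by_cases ha : a = i
      · exact Or.inr (by simpa using hy a (fun h => hij (ha.symm.trans h)))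
      · exact Or.inl (by simpa using hx a ha))
    simpa using h1
  have hpos : 0 < n := by
    rcases Nat.eq_zero_or_pos n with rfl | h
    · exfalso
      have hN : PP 𝔸 {z : Fin 2 → B | z 0 ≠ z 1} := by
        apply hall
        intro g _ z hz hzz
        exact hz (g.injective hzz)
      have h1 := hf.preserves hN (fun a => a.elim0) (fun a => a.elim0)
      apply h1
      show f _ = f _
      congr 1
      funext a
      exact a.elim0
    · exact h
  -- a coordinate such that f does not depend on the others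
  have hex : ∃ i : Fin n, ∀ j, j ≠ i → ∀ y y' : Fin n → B, (∀ l, l ≠ j → y l = y' l) → f y = f y' := by
    by_contra hcon
    push Not at hcon
    obtain ⟨j, _, y, y', hy, hyy⟩ := hcon ⟨0, hpos⟩
    obtain ⟨i, hij, x, x', hx, hxx⟩ := hcon j
    rcases hdep i j hij x x' y y' hx hy with h | h
    · exact hxx h
    · exact hyy h
  obtain ⟨i, hi⟩ := hex
  have hfi : ∀ x y : Fin n → B, x i = y i → f x = f y := by
    intro x y hxy
    have key : ∀ T : Finset (Fin n), f (T.piecewise y x) = f x := by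
      intro T
      induction T using Finset.induction_on with
      | empty => simp
      | insert j T hj ih =>
        rw [← ih]
        by_cases hji : j = i
        · congr 1
          subst hji
          funext l
          by_cases hl : l = j
          · subst hl
            simp [Finset.piecewise, hj, hxy]
          · simp [Finset.piecewise, hl]
        · apply hi j hji
          intro l hl
          simp [Finset.piecewise, hl]
    have h1 := key Finset.univ
    rw [Finset.piecewise_univ] at h1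
    exact h1.symm
  refine ⟨i, fun b => f (fun _ => b), ?_, ?_⟩
  · intro F
    have hS : PP 𝔸 {z : F → B | Same G (fun x : F => (x : B)) z} := by
      apply hall
      intro g hg z hz
      exact hz.trans ⟨g, hg, fun _ => rfl⟩
    obtain ⟨g, hg, h⟩ := hf.preserves hS (fun _ x => (x : B)) (fun _ => Same.refl G _)
    exact ⟨g, hg, fun x hx => (h ⟨x, hx⟩).symm⟩
  · intro x
    exact hfi x _ rfl

theorem k3_of_all {G : Subgroup (Equiv.Perm B)} [Nontrivial B] {ι : Type} {ar : ι → ℕ}
    {𝔸 : Str ι ar B} (hall : ∀ (V : Type) [Finite V] (S : Set (V → B)), Invar G S → PP 𝔸 S) :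
    PPConstructsK3 𝔸 := by
  classical
  let odd : Fin 3 → (Fin 3 → B) → Prop := fun i x =>
    ∀ i', i' ≠ i → x i' ≠ x i ∧ ∀ i'', i'' ≠ i → x i' = x i''
  have hthird : ∀ i j : Fin 3, i ≠ j → ∃ l, l ≠ i ∧ l ≠ j := by decide
  have hodd : ∀ i j x, odd i x → odd j x → i = j := by
    intro i j x hi hj
    by_contra hij
    obtain ⟨l, hli, hlj⟩ := hthird i j hij
    exact (hj l hlj).1 ((hi l hli).2 j (Ne.symm hij))
  let E : Set (Fin 3 ⊕ Fin 3 → B) := {z | ∃ i j, i ≠ j ∧ odd i (fun l => z (Sum.inl l)) ∧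
    odd j (fun l => z (Sum.inr l))}
  have hE : PP 𝔸 E := by
    apply hall
    rintro g _ z ⟨i, j, hij, h1, h2⟩
    refine ⟨i, j, hij, ?_, ?_⟩
    · intro i' hi'
      refine ⟨fun h => (h1 i' hi').1 (g.injective h), fun i'' hi'' => ?_⟩
      have := (h1 i' hi').2 i'' hi''
      simp only at this ⊢
      rw [this]
    · intro i' hi'
      refine ⟨fun h => (h2 i' hi').1 (g.injective h), fun i'' hi'' => ?_⟩
      have := (h2 i' hi').2 i'' hi''
      simp only at this ⊢
      rw [this]
  obtain ⟨a, b, hab⟩ := exists_pair_ne B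
  refine ⟨3, E, by norm_num, hE.toPPDef, ⟨fun i l => if l = i then a else b, ?_⟩,
    ⟨fun x => if h : ∃ i, odd i x then h.choose else 0, ?_⟩⟩
  · have h1 : ∀ i, odd i (fun l => if l = i then a else b) := by
      intro i i' hi'
      simp only [hi', if_false, if_true]
      refine ⟨hab.symm, fun i'' hi'' => ?_⟩
      simp [hi'']
    intro i j hij
    exact ⟨i, j, hij, h1 i, h1 j⟩
  · rintro x y ⟨i, j, hij, h1, h2⟩
    have hx : ∃ i, odd i x := ⟨i, h1⟩
    have hy : ∃ i, odd i y := ⟨j, h2⟩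
    simp only [dif_pos hx, dif_pos hy]
    rw [hodd _ _ _ hx.choose_spec h1, hodd _ _ _ hy.choose_spec h2]
    exact hij

/-- a structure with a constant endomorphism does not pp-construct K_3 -/
theorem not_k3_of_const {ι : Type} {ar : ι → ℕ} {𝔸 : Str ι ar B} (h : ConstEndo 𝔸) :
    ¬ PPConstructsK3 𝔸 := by
  obtain ⟨b, hb⟩ := h
  rintro ⟨n, E, _, ⟨q, Φ, hE⟩, ⟨f, hf⟩, ⟨g, hg⟩⟩
  obtain ⟨u, hu⟩ := (hE _).1 (hf 0 1 (by decide))
  have h1 : (Sum.elim (fun _ : Fin n => b) (fun _ : Fin n => b)) ∈ E := by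
    rw [hE]
    refine ⟨fun _ => b, ?_⟩
    have h2 : Sum.elim (Sum.elim (fun _ : Fin n => b) (fun _ : Fin n => b)) (fun _ : Fin q => b) =
        fun _ => b := by
      funext x
      rcases x with (x | x) | x <;> rfl
    rw [h2]
    intro φ hφ
    have h3 := hu φ hφ
    cases φ with
    | eq x y => rfl
    | rel i x => exact hb i _ h3
  exact hg _ _ h1 rfl

end Pool.Agent.W994.AR
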