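import Pool.Agent.W994.AR.Rich

/-!
Relational structures, primitive positive definitions and their closure properties.
-/

namespace Pool.Agent.W994.AR

variable {B : Type}

/-- A relational structure with domain B: relation symbols i : ι of arity ar i. -/
abbrev Str (ι : Type) (ar : ι → ℕ) (B : Type) : Type := ∀ i : ι, Set (Fin (ar i) → B)

/-- Atomic formulas with variables V: equalities and relation symbols applied to variables. -/
inductive Atom (ι : Type) (ar : ι → ℕ) (V : Type) : Type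
  | eq (x y : V) : Atom ι ar V
  | rel (i : ι) (x : Fin (ar i) → V) : Atom ι ar V

/-- the atomic formula holds in the structure under the assignment e -/
def Atom.Holds {ι : Type} {ar : ι → ℕ} {V : Type} (𝔸 : Str ι ar B) (e : V → B) :
    Atom ι ar V → Prop
  | .eq x y => e x = e y
  | .rel i x => (fun j => e (x j)) ∈ 𝔸 i

/-- S is primitive positive definable in 𝔸: an existentially quantified finite conjunction of
atomic formulas. -/
def PPDef {ι : Type} {ar : ι → ℕ} (𝔸 : Str ι ar B) {V : Type} (S : Set (V → B)) : Prop :=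
  ∃ (q : ℕ) (Φ : List (Atom ι ar (V ⊕ Fin q))),
    ∀ v : V → B, v ∈ S ↔ ∃ u : Fin q → B, ∀ φ ∈ Φ, φ.Holds 𝔸 (Sum.elim v u)

/-- internal version: finite type of bound variables, finite set of atoms -/
def PP {ι : Type} {ar : ι → ℕ} (𝔸 : Str ι ar B) {V : Type} (S : Set (V → B)) : Prop :=
  ∃ (W : Type) (_ : Finite W) (Φ : Set (Atom ι ar (V ⊕ W))), Φ.Finite ∧
    ∀ v : V → B, v ∈ S ↔ ∃ u : W → B, ∀ φ ∈ Φ, φ.Holds 𝔸 (Sum.elim v u)

section closure

variable {ι : Type} {ar : ι → ℕ} {𝔸 : Str ι ar B}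

/-- renaming of variables in atoms -/
def Atom.map {V V' : Type} (f : V → V') : Atom ι ar V → Atom ι ar V'
  | .eq x y => .eq (f x) (f y)
  | .rel i x => .rel i (fun j => f (x j))

theorem Atom.holds_map {V V' : Type} (f : V → V') (e : V' → B) (φ : Atom ι ar V) :
    (φ.map f).Holds 𝔸 e ↔ φ.Holds 𝔸 (fun x => e (f x)) := by
  cases φ <;> rfl

theorem PP.toPPDef {V : Type} {S : Set (V → B)} (h : PP 𝔸 S) : PPDef 𝔸 S := by
  classical
  obtain ⟨W, hW, Φ, hΦ, h⟩ := h
  obtain ⟨q, ⟨e⟩⟩ := Finite.exists_equiv_fin W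
  refine ⟨q, (hΦ.toFinset.toList).map (Atom.map (Sum.map id e)), ?_⟩
  intro v
  rw [h v]
  constructor
  · rintro ⟨u, hu⟩
    refine ⟨fun i => u (e.symm i), ?_⟩
    intro φ hφ
    obtain ⟨ψ, hψ, rfl⟩ := List.mem_map.1 hφ
    rw [Atom.holds_map]
    have hψ' : ψ ∈ Φ := by
      simpa using hψ
    have := hu ψ hψ'
    convert this using 1
    funext x
    cases x <;> simp
  · rintro ⟨u, hu⟩
    refine ⟨fun i => u (e i), ?_⟩
    intro φ hφ
    have := hu (φ.map (Sum.map id e)) (List.mem_map_of_mem (by simpa using hφ))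
    rw [Atom.holds_map] at this
    convert this using 1
    funext x
    cases x <;> simp

theorem PP.inter {V : Type} {S T : Set (V → B)} (hS : PP 𝔸 S) (hT : PP 𝔸 T) : PP 𝔸 (S ∩ T) := by
  obtain ⟨W, hW, Φ, hΦ, h⟩ := hS
  obtain ⟨W', hW', Ψ, hΨ, h'⟩ := hT
  refine ⟨W ⊕ W', inferInstance, (Atom.map (Sum.map id Sum.inl)) '' Φ ∪
    (Atom.map (Sum.map id Sum.inr)) '' Ψ, (hΦ.image _).union (hΨ.image _), ?_⟩
  intro v
  rw [Set.mem_inter_iff, h v, h' v]
  constructor
  · rintro ⟨⟨u, hu⟩, ⟨u', hu'⟩⟩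
    refine ⟨Sum.elim u u', ?_⟩
    rintro φ (⟨ψ, hψ, rfl⟩ | ⟨ψ, hψ, rfl⟩)
    · rw [Atom.holds_map]
      convert hu ψ hψ using 1
      funext x
      cases x <;> simp
    · rw [Atom.holds_map]
      convert hu' ψ hψ using 1
      funext x
      cases x <;> simp
  · rintro ⟨u, hu⟩
    refine ⟨⟨fun i => u (Sum.inl i), ?_⟩, ⟨fun i => u (Sum.inr i), ?_⟩⟩
    · intro ψ hψ
      have := hu _ (Or.inl ⟨ψ, hψ, rfl⟩)
      rw [Atom.holds_map] at this
      convert this using 1
      funext x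
      cases x <;> simp
    · intro ψ hψ
      have := hu _ (Or.inr ⟨ψ, hψ, rfl⟩)
      rw [Atom.holds_map] at this
      convert this using 1
      funext x
      cases x <;> simp

theorem PP.univ {V : Type} : PP 𝔸 (Set.univ : Set (V → B)) := by
  refine ⟨Empty, inferInstance, ∅, Set.finite_empty, ?_⟩
  intro v
  simp

theorem PP.atom {V : Type} (φ : Atom ι ar V) : PP 𝔸 {v : V → B | φ.Holds 𝔸 v} := by
  refine ⟨Empty, inferInstance, {φ.map Sum.inl}, Set.finite_singleton _, ?_⟩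
  intro v
  constructor
  · intro hv
    refine ⟨fun x => x.elim, ?_⟩
    rintro ψ rfl
    rw [Atom.holds_map]
    exact hv
  · rintro ⟨u, hu⟩
    have := hu _ rfl
    rw [Atom.holds_map] at this
    exact this

theorem PP.eq {V : Type} (x y : V) : PP 𝔸 {v : V → B | v x = v y} := PP.atom (.eq x y)

theorem PP.rel {V : Type} (i : ι) (x : Fin (ar i) → V) : PP 𝔸 {v : V → B | v ∘ x ∈ 𝔸 i} :=
  PP.atom (.rel i x)

/-- finite intersections -/
theorem PP.iInter {V α : Type} (s : Set α) (hs : s.Finite) (S : α → Set (V → B))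
    (h : ∀ a ∈ s, PP 𝔸 (S a)) : PP 𝔸 {v : V → B | ∀ a ∈ s, v ∈ S a} := by
  induction s, hs using Set.Finite.induction_on with
  | empty =>
    convert PP.univ using 1
    ext v
    simp
  | @insert a s _ _ ih =>
    have h1 := ih (fun a ha => h a (Set.mem_insert_of_mem _ ha))
    have h2 := h a (Set.mem_insert _ _)
    convert h2.inter h1 using 1
    ext v
    simp

/-- substitution of variables -/
theorem PP.subst {V V' : Type} {S : Set (V → B)} (h : PP 𝔸 S) (s : V → V') :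
    PP 𝔸 {z : V' → B | z ∘ s ∈ S} := by
  obtain ⟨W, hW, Φ, hΦ, h⟩ := h
  refine ⟨W, hW, (Atom.map (Sum.map s id)) '' Φ, hΦ.image _, ?_⟩
  intro z
  show z ∘ s ∈ S ↔ _
  rw [h (z ∘ s)]
  constructor
  · rintro ⟨u, hu⟩
    refine ⟨u, ?_⟩
    rintro φ ⟨ψ, hψ, rfl⟩
    rw [Atom.holds_map]
    convert hu ψ hψ using 1
    funext x
    cases x <;> simp
  · rintro ⟨u, hu⟩
    refine ⟨u, ?_⟩
    intro ψ hψ
    have := hu _ ⟨ψ, hψ, rfl⟩
    rw [Atom.holds_map] at this
    convert this using 1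
    funext x
    cases x <;> simp

/-- existential quantification -/
theorem PP.ex {V U : Type} [hU : Finite U] {S : Set (V ⊕ U → B)} (h : PP 𝔸 S) :
    PP 𝔸 {v : V → B | ∃ u : U → B, Sum.elim v u ∈ S} := by
  obtain ⟨W, hW, Φ, hΦ, h⟩ := h
  refine ⟨U ⊕ W, inferInstance, (Atom.map (Equiv.sumAssoc V U W)) '' Φ, hΦ.image _, ?_⟩
  intro v
  constructor
  · rintro ⟨u, hu⟩
    obtain ⟨w, hw⟩ := (h _).1 hu
    refine ⟨Sum.elim u w, ?_⟩
    rintro φ ⟨ψ, hψ, rfl⟩
    rw [Atom.holds_map]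
    convert hw ψ hψ using 1
    funext x
    rcases x with (x | x) | x <;> rfl
  · rintro ⟨u, hu⟩
    refine ⟨fun x => u (Sum.inl x), (h _).2 ⟨fun x => u (Sum.inr x), ?_⟩⟩
    intro ψ hψ
    have := hu _ ⟨ψ, hψ, rfl⟩
    rw [Atom.holds_map] at this
    convert this using 1
    funext x
    rcases x with (x | x) | x <;> rfl

end closure

end Pool.Agent.W994.AR
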