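import Pool.Agent.W994.AR.Count

/-!
Rich relations: for a permutation group with finitely many orbits on tuples, all but a doubly
exponentially small proportion of the invariant relations of arity k are rich.
-/

namespace Pool.Agent.W994.AR

open Finset

variable {B : Type}

/-- v is an image of u under an element of the group G. -/
def Same (G : Subgroup (Equiv.Perm B)) {V : Type} (u v : V → B) : Prop :=
  ∃ g ∈ G, ∀ i, g (u i) = v i

/-- S is invariant under G. -/
def Invar (G : Subgroup (Equiv.Perm B)) {V : Type} (S : Set (V → B)) : Prop :=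
  ∀ g ∈ G, ∀ v ∈ S, (fun i => g (v i)) ∈ S

/-- v is not constant. -/
def NC {V : Type} (v : V → B) : Prop := ∃ i j, v i ≠ v j

theorem Same.refl (G : Subgroup (Equiv.Perm B)) {V : Type} (u : V → B) : Same G u u :=
  ⟨1, G.one_mem, fun _ => rfl⟩

theorem Same.symm {G : Subgroup (Equiv.Perm B)} {V : Type} {u v : V → B} (h : Same G u v) :
    Same G v u := by
  obtain ⟨g, hg, h⟩ := h
  exact ⟨g⁻¹, G.inv_mem hg, fun i => by rw [← h i]; simp⟩

theorem Same.trans {G : Subgroup (Equiv.Perm B)} {V : Type} {u v w : V → B} (h : Same G u v)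
    (h' : Same G v w) : Same G u w := by
  obtain ⟨g, hg, h⟩ := h
  obtain ⟨g', hg', h'⟩ := h'
  exact ⟨g' * g, G.mul_mem hg' hg, fun i => by rw [Equiv.Perm.mul_apply, h i, h' i]⟩

theorem Same.comp {G : Subgroup (Equiv.Perm B)} {V W : Type} {u v : V → B} (h : Same G u v)
    (s : W → V) : Same G (u ∘ s) (v ∘ s) := by
  obtain ⟨g, hg, h⟩ := h
  exact ⟨g, hg, fun i => h (s i)⟩

theorem Same.mem {G : Subgroup (Equiv.Perm B)} {V : Type} {u v : V → B} (h : Same G u v)
    {S : Set (V → B)} (hS : Invar G S) (hu : u ∈ S) : v ∈ S := by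
  obtain ⟨g, hg, h⟩ := h
  have := hS g hg u hu
  have e : (fun i => g (u i)) = v := funext h
  rwa [e] at this

theorem Same.mem_iff {G : Subgroup (Equiv.Perm B)} {V : Type} {u v : V → B} (h : Same G u v)
    {S : Set (V → B)} (hS : Invar G S) : u ∈ S ↔ v ∈ S :=
  ⟨h.mem hS, h.symm.mem hS⟩

theorem Same.nc {G : Subgroup (Equiv.Perm B)} {V : Type} {u v : V → B} (h : Same G u v)
    (hu : NC u) : NC v := by
  obtain ⟨g, hg, h⟩ := h
  obtain ⟨i, j, hij⟩ := hu
  exact ⟨i, j, fun e => hij (g.injective (by rw [h i, h j, e]))⟩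

/-- the orbit equivalence relation -/
def orb (G : Subgroup (Equiv.Perm B)) (V : Type) : Setoid (V → B) where
  r := Same G
  iseqv := ⟨Same.refl G, Same.symm, Same.trans⟩

/-- the type of orbits of tuples -/
abbrev Orb (G : Subgroup (Equiv.Perm B)) (V : Type) : Type := Quotient (orb G V)

/-- the type of G-invariant relations with coordinates V -/
abbrev InvRel (G : Subgroup (Equiv.Perm B)) (V : Type) : Type := {R : Set (V → B) // Invar G R}

/-- invariant relations are sets of orbits -/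
noncomputable def invEquiv (G : Subgroup (Equiv.Perm B)) (V : Type) :
    InvRel G V ≃ Set (Orb G V) where
  toFun R := {o | ∃ v ∈ R.1, (Quotient.mk (orb G V) v) = o}
  invFun X := ⟨{v | (Quotient.mk (orb G V) v) ∈ X}, by
    intro g hg v hv
    have : (Quotient.mk (orb G V) v) = Quotient.mk (orb G V) (fun i => g (v i)) :=
      Quotient.sound (⟨g, hg, fun _ => rfl⟩ : Same G v (fun i => g (v i)))
    simp only [Set.mem_ofPred_eq] at hv ⊢
    rw [← this]
    exact hv⟩
  left_inv R := by
    apply Subtype.ext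
    ext v
    constructor
    · rintro ⟨u, hu, h⟩
      exact Same.mem (Quotient.exact h) R.2 hu
    · intro hv
      exact ⟨v, hv, rfl⟩
  right_inv X := by
    ext o
    constructor
    · rintro ⟨v, hv, rfl⟩
      exact hv
    · intro ho
      obtain ⟨v, rfl⟩ := Quotient.exists_rep o
      exact ⟨v, ho, rfl⟩

/-- R (a relation of arity k) is rich for the coordinates V: for every nonconstant v some word w
sends v outside R and every nonconstant tuple from another orbit into R. -/
def Rich (G : Subgroup (Equiv.Perm B)) (V : Type) {k : ℕ} (R : Set (Fin k → B)) : Prop :=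
  ∀ v : V → B, NC v → ∃ w : Fin k → V, v ∘ w ∉ R ∧ ∀ u : V → B, NC u → ¬ Same G u v → u ∘ w ∈ R

/-- the word attached to a set of blocks -/
def word (M k : ℕ) (hM : 0 < M) (A : Finset ℕ) : Fin k → Fin M := fun p =>
  if (p : ℕ) / M = 0 ∨ (p : ℕ) / M ∈ A then ⟨(p : ℕ) % M, Nat.mod_lt _ hM⟩ else ⟨0, hM⟩

theorem word_pos (M k : ℕ) (hM : 0 < M) (A : Finset ℕ) (b : ℕ) (hb : b = 0 ∨ b ∈ A) (o : Fin M)
    (h : b * M + o < k) : word M k hM A ⟨b * M + o, h⟩ = o := by
  have h1 : (b * M + (o : ℕ)) / M = b := by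
    rw [Nat.mul_comm, Nat.mul_add_div hM, Nat.div_eq_of_lt o.2, Nat.add_zero]
  have h2 : (b * M + (o : ℕ)) % M = o := by
    rw [Nat.mul_comm, Nat.mul_add_mod, Nat.mod_eq_of_lt o.2]
  unfold word
  simp only [h1, h2]
  rw [if_pos hb]

theorem word_neg (M k : ℕ) (hM : 0 < M) (A : Finset ℕ) (b : ℕ) (hb0 : b ≠ 0) (hb : b ∉ A)
    (o : Fin M) (h : b * M + o < k) : word M k hM A ⟨b * M + o, h⟩ = ⟨0, hM⟩ := by
  have h1 : (b * M + (o : ℕ)) / M = b := by
    rw [Nat.mul_comm, Nat.mul_add_div hM, Nat.div_eq_of_lt o.2, Nat.add_zero]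
  unfold word
  simp only [h1]
  rw [if_neg (by tauto)]

theorem same_of_word {G : Subgroup (Equiv.Perm B)} (M k : ℕ) (hM : 0 < M) (hk : M ≤ k)
    (A : Finset ℕ) (u v : Fin M → B) (h : Same G (u ∘ word M k hM A) (v ∘ word M k hM A)) :
    Same G u v := by
  obtain ⟨g, hg, h⟩ := h
  refine ⟨g, hg, fun o => ?_⟩
  have h1 : 0 * M + (o : ℕ) < k := by rw [Nat.zero_mul, Nat.zero_add]; exact lt_of_lt_of_le o.2 hk
  have := h ⟨0 * M + o, h1⟩
  simp only [Function.comp, word_pos M k hM A 0 (Or.inl rfl) o h1] at this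
  exact this

theorem word_differ {G : Subgroup (Equiv.Perm B)} (M k m : ℕ) (hM : 0 < M) (hk : (m + 1) * M ≤ k)
    (A A' : Finset ℕ) (hA : A ⊆ Finset.Icc 1 m) (hA' : A' ⊆ Finset.Icc 1 m) (hne : A ≠ A')
    (u v : Fin M → B) (hu : NC u) (hv : NC v) :
    ¬ Same G (u ∘ word M k hM A) (v ∘ word M k hM A') := by
  intro hs
  -- reduce to the case of a block in A and not in A'
  have key : ∀ (A A' : Finset ℕ) (_ : A ⊆ Finset.Icc 1 m) (u v : Fin M → B) (_ : NC u)
      (_ : Same G (u ∘ word M k hM A) (v ∘ word M k hM A')), A ⊆ A' := by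
    intro A A' hA u v hu hs b hb
    by_contra hb'
    obtain ⟨g, hg, h⟩ := hs
    have hb1 := Finset.mem_Icc.1 (hA hb)
    have hpos : ∀ o : Fin M, b * M + (o : ℕ) < k := by
      intro o
      have : (b + 1) * M ≤ (m + 1) * M := Nat.mul_le_mul_right _ (by omega)
      have h2 : (b + 1) * M = b * M + M := by ring
      have := o.2
      omega
    have h1 : ∀ o : Fin M, g (u o) = v ⟨0, hM⟩ := by
      intro o
      have := h ⟨b * M + o, hpos o⟩
      simp only [Function.comp, word_pos M k hM A b (Or.inr hb) o (hpos o),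
        word_neg M k hM A' b (by omega) hb' o (hpos o)] at this
      exact this
    obtain ⟨i, j, hij⟩ := hu
    exact hij (g.injective (by rw [h1 i, h1 j]))
  exact hne (Finset.Subset.antisymm (key A A' hA u v hu hs) (key A' A hA' v u hv hs.symm))

theorem rich_count_aux (G : Subgroup (Equiv.Perm B)) (M k m : ℕ) (hM : 0 < M)
    (hk : (m + 1) * M ≤ k) [hF : Finite (Orb G (Fin M))] [Finite (Orb G (Fin k))] :
    (Nat.card {R : InvRel G (Fin k) // ¬ Rich G (Fin M) R.1} : ℝ) ≤
      Nat.card (Orb G (Fin M)) *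
        ((1 - (2⁻¹ : ℝ) ^ Nat.card (Orb G (Fin M))) ^ (2 ^ m) * Nat.card (InvRel G (Fin k))) := by
  classical
  have := Fintype.ofFinite (Orb G (Fin M))
  have := Fintype.ofFinite (Orb G (Fin k))
  have hMk : M ≤ k := le_trans (by nlinarith) hk
  -- the map on orbits
  let φ : Finset ℕ → Orb G (Fin M) → Orb G (Fin k) := fun A =>
    Quotient.map' (s₁ := orb G (Fin M)) (s₂ := orb G (Fin k)) (fun u => u ∘ word M k hM A)
      (fun u v h => Same.comp h _)
  have hφ : ∀ A u, φ A (Quotient.mk (orb G (Fin M)) u) = Quotient.mk (orb G (Fin k)) (u ∘ word M k hM A) :=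
    fun A u => rfl
  let ncO : Finset (Orb G (Fin M)) := Finset.univ.filter (fun o => ∃ u, NC u ∧ Quotient.mk (orb G (Fin M)) u = o)
  have hφinj : ∀ A o o', φ A o = φ A o' → o = o' := by
    intro A o o' h
    obtain ⟨u, rfl⟩ := Quotient.exists_rep o
    obtain ⟨v, rfl⟩ := Quotient.exists_rep o'
    apply Quotient.sound
    exact same_of_word M k hM hMk A u v (Quotient.exact h)
  let D : Finset ℕ → Finset (Orb G (Fin k)) := fun A => ncO.image (φ A)
  let T : Orb G (Fin M) → Finset ℕ → Finset (Orb G (Fin k)) := fun o A => (ncO.erase o).image (φ A)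
  let W : Finset (Finset ℕ) := (Finset.Icc 1 m).powerset
  have hWcard : W.card = 2 ^ m := by
    simp [W]
  have hcount : ∀ o, (((Finset.univ : Finset (Finset (Orb G (Fin k)))).filter
      (fun R => ∀ w ∈ W, R ∩ D w ≠ T o w)).card : ℝ) ≤
      (1 - (2⁻¹ : ℝ) ^ Nat.card (Orb G (Fin M))) ^ (2 ^ m) * 2 ^ Fintype.card (Orb G (Fin k)) := by
    intro o
    rw [← hWcard]
    apply count
    · intro w _
      exact Finset.image_subset_image (Finset.erase_subset _ _)
    · intro w _
      rw [Nat.card_eq_fintype_card]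
      exact (Finset.card_image_le).trans (Finset.card_le_univ _)
    · intro w hw w' hw' hne
      rw [Finset.disjoint_left]
      intro x hx hx'
      obtain ⟨o1, ho1, h1⟩ := Finset.mem_image.1 hx
      obtain ⟨o2, ho2, h2⟩ := Finset.mem_image.1 hx'
      obtain ⟨u, hu, rfl⟩ := (Finset.mem_filter.1 ho1).2
      obtain ⟨v, hv, rfl⟩ := (Finset.mem_filter.1 ho2).2
      rw [← h2] at h1
      exact word_differ M k m hM hk w w' (Finset.mem_powerset.1 hw) (Finset.mem_powerset.1 hw') hne
        u v hu hv (Quotient.exact h1)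
  -- the number of invariant relations
  have hInv : Nat.card (InvRel G (Fin k)) = 2 ^ Fintype.card (Orb G (Fin k)) := by
    rw [Nat.card_congr (invEquiv G (Fin k)), Nat.card_eq_fintype_card, Fintype.card_set]
  -- transfer
  let F : {R : InvRel G (Fin k) // ¬ Rich G (Fin M) R.1} → Finset (Orb G (Fin k)) := fun R =>
    (invEquiv G (Fin k) R.1).toFinset
  have hFinj : Function.Injective F := by
    intro R R' h
    apply Subtype.ext
    apply (invEquiv G (Fin k)).injective
    exact Set.toFinset_inj.1 h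
  have hmem : ∀ (R : InvRel G (Fin k)) (v : Fin k → B),
      (Quotient.mk (orb G (Fin k)) v ∈ (invEquiv G (Fin k) R).toFinset) ↔ v ∈ R.1 := by
    intro R v
    rw [Set.mem_toFinset]
    constructor
    · rintro ⟨u, hu, h⟩
      exact Same.mem (Quotient.exact h) R.2 hu
    · intro hv
      exact ⟨v, hv, rfl⟩
  have himg : ∀ R, F R ∈ (Finset.univ : Finset (Orb G (Fin M))).biUnion (fun o =>
      (Finset.univ : Finset (Finset (Orb G (Fin k)))).filter (fun R => ∀ w ∈ W, R ∩ D w ≠ T o w)) := by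
    intro R
    have hR := R.2
    unfold Rich at hR
    push Not at hR
    obtain ⟨v, hv, hbad⟩ := hR
    rw [Finset.mem_biUnion]
    refine ⟨Quotient.mk (orb G (Fin M)) v, Finset.mem_univ _, ?_⟩
    rw [Finset.mem_filter]
    refine ⟨Finset.mem_univ _, ?_⟩
    intro A _ hEq
    have hvnc : Quotient.mk (orb G (Fin M)) v ∈ ncO :=
      Finset.mem_filter.2 ⟨Finset.mem_univ _, v, hv, rfl⟩
    have h1 : v ∘ word M k hM A ∉ R.1.1 := by
      intro hin
      have h2 : φ A (Quotient.mk (orb G (Fin M)) v) ∈ F R ∩ D A := by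
        rw [Finset.mem_inter]
        refine ⟨?_, Finset.mem_image_of_mem _ hvnc⟩
        rw [hφ]
        exact (hmem R.1 _).2 hin
      rw [hEq] at h2
      obtain ⟨o', ho', h3⟩ := Finset.mem_image.1 h2
      have := hφinj A _ _ h3
      rw [this] at ho'
      exact Finset.notMem_erase _ _ ho'
    obtain ⟨u, hu, hus, hun⟩ := hbad (word M k hM A) h1
    apply hun
    have h2 : φ A (Quotient.mk (orb G (Fin M)) u) ∈ T (Quotient.mk (orb G (Fin M)) v) A := by
      apply Finset.mem_image_of_mem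
      rw [Finset.mem_erase]
      refine ⟨fun h => hus (Quotient.exact h), Finset.mem_filter.2 ⟨Finset.mem_univ _, u, hu, rfl⟩⟩
    rw [← hEq, Finset.mem_inter, hφ] at h2
    exact (hmem R.1 _).1 h2.1
  have hle : Nat.card {R : InvRel G (Fin k) // ¬ Rich G (Fin M) R.1} ≤
      ((Finset.univ : Finset (Orb G (Fin M))).biUnion (fun o =>
      (Finset.univ : Finset (Finset (Orb G (Fin k)))).filter (fun R => ∀ w ∈ W, R ∩ D w ≠ T o w))).card := by
    have : Finite (InvRel G (Fin k)) := Finite.of_equiv _ (invEquiv G (Fin k)).symm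
    have := Fintype.ofFinite {R : InvRel G (Fin k) // ¬ Rich G (Fin M) R.1}
    rw [Nat.card_eq_fintype_card, ← Finset.card_univ]
    exact Finset.card_le_card_of_injOn F (fun R _ => himg R) (fun _ _ _ _ h => hFinj h)
  calc (Nat.card {R : InvRel G (Fin k) // ¬ Rich G (Fin M) R.1} : ℝ)
      ≤ (((Finset.univ : Finset (Orb G (Fin M))).biUnion (fun o =>
      (Finset.univ : Finset (Finset (Orb G (Fin k)))).filter
        (fun R => ∀ w ∈ W, R ∩ D w ≠ T o w))).card : ℝ) := by exact_mod_cast hle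
    _ ≤ ∑ o : Orb G (Fin M), (((Finset.univ : Finset (Finset (Orb G (Fin k)))).filter
        (fun R => ∀ w ∈ W, R ∩ D w ≠ T o w)).card : ℝ) := by
        exact_mod_cast Finset.card_biUnion_le
    _ ≤ ∑ o : Orb G (Fin M), (1 - (2⁻¹ : ℝ) ^ Nat.card (Orb G (Fin M))) ^ (2 ^ m) *
        2 ^ Fintype.card (Orb G (Fin k)) := Finset.sum_le_sum (fun o _ => hcount o)
    _ = _ := by
        rw [Finset.sum_const, Finset.card_univ, nsmul_eq_mul, hInv, Nat.card_eq_fintype_card]
        push_cast
        rfl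

end Pool.Agent.W994.AR
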